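import Mathlib

/-!
Central elements killed by a given exponent.
-/

namespace Pool.Agent.Work.MP_7393fc_al

/-- The subgroup of central elements `z` with `z ^ n = 1`. -/
def centralTorsion (G : Type*) [Group G] (n : ℕ) : Subgroup G where
  carrier := {z | z ∈ Subgroup.center G ∧ z ^ n = 1}
  one_mem' := ⟨one_mem _, one_pow n⟩
  mul_mem' := fun {a b} ha hb => ⟨mul_mem ha.1 hb.1, by
    rw [Commute.mul_pow (Subgroup.mem_center_iff.1 hb.1 a), ha.2, hb.2, one_mul]⟩
  inv_mem' := fun {a} ha => ⟨inv_mem ha.1, by rw [inv_pow, ha.2, inv_one]⟩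

end Pool.Agent.Work.MP_7393fc_al
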