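import Mathlib
import Pool.Agent.Work.MP_7393fc_al.Defs

-- merged part: Pool.Agent.Work.MP_7393fc_al.Abel
section
/-!
Skew bilinear maps on finite abelian `p`-groups whose values fill all homomorphic images.
-/

namespace Pool.Agent.Work.MP_7393fc_al

open Subgroup

section chars

variable {A : Type*} [CommGroup A] [Finite A]

theorem sep (S : Subgroup A) {x : A} (hx : x ∉ S) :
    ∃ χ : A →* ℂˣ, (∀ y ∈ S, χ y = 1) ∧ χ x ≠ 1 := by
  by_contra h
  push Not at h
  exact hx ((CommGroup.forall_monoidHom_apply_eq_one_iff ℂ S x).1 h)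

theorem represent (ω : A →* A →* ℂˣ) (hω : ∀ a b, ω a b = (ω b a)⁻¹) (μ : A →* ℂˣ)
    (hμ : ∀ a, (∀ b, ω a b = 1) → μ a = 1) : ∃ y, ∀ a, ω y a = μ a := by
  have : Finite (A →* ℂˣ) :=
    Finite.of_equiv _ (CommGroup.monoidHom_mulEquiv_of_hasEnoughRootsOfUnity A ℂ).some.symm.toEquiv
  by_contra h
  have h' : μ ∉ ω.range := fun ⟨y, hy⟩ => h ⟨y, fun a => by rw [hy]⟩
  obtain ⟨η, h1, h2⟩ := sep _ h'
  apply h2
  rw [← CommGroup.apply_monoidHomMonoidHomEquiv ℂ μ η]
  refine hμ _ fun b => ?_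
  rw [hω, CommGroup.apply_monoidHomMonoidHomEquiv, h1 _ ⟨b, rfl⟩, inv_one]

end chars

theorem exists_hom {G B : Type*} [Group G] [Group B] (μ : G →* ℂˣ) (x : G)
    (hx : ∀ g, μ g ∈ zpowers (μ x)) {t : B} (ht : orderOf t ∣ orderOf (μ x)) :
    ∃ f : G →* B, ∀ g (k : ℤ), μ g = μ x ^ k → f g = t ^ k := by
  have hg : ∀ y : zpowers (μ x), y ∈ zpowers (⟨μ x, mem_zpowers _⟩ : zpowers (μ x)) := by
    rintro ⟨y, k, rfl⟩
    exact ⟨k, Subtype.ext (by simp)⟩
  have ht' : orderOf t ∣ orderOf (⟨μ x, mem_zpowers _⟩ : zpowers (μ x)) := by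
    rwa [Subgroup.orderOf_mk]
  refine ⟨(monoidHomOfForallMemZpowers hg ht').comp (μ.codRestrict _ hx), fun g k h => ?_⟩
  have : μ.codRestrict _ hx g = (⟨μ x, mem_zpowers _⟩ : zpowers (μ x)) ^ k :=
    Subtype.ext (by simpa using h)
  rw [MonoidHom.comp_apply, this, map_zpow, monoidHomOfForallMemZpowers_apply_gen]

variable {A B : Type*} [CommGroup A] [Finite A] [CommGroup B] [Finite B] {p : ℕ}

omit [Finite B] in
theorem exists_hom_apply [Fact p.Prime] {u : ℕ} {x : A} {z : B} (hz : z ^ p ^ (u + 1) = 1)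
    (hx : ¬ ∃ h y : A, h ^ p ^ u = 1 ∧ x = h * y ^ p) : ∃ f : A →* B, f x = z := by
  have h1 : x ^ p ^ u ∉ (powMonoidHom (p ^ (u + 1)) : A →* A).range := by
    rintro ⟨y, hy⟩
    refine hx ⟨x / y ^ p, y, ?_, by simp⟩
    rw [div_pow, ← hy, ← pow_mul, ← pow_succ']
    simp
  obtain ⟨μ, h2, h3⟩ := sep _ h1
  have h4 : ∀ g, μ g ^ p ^ (u + 1) = 1 := fun g => by
    rw [← map_pow]; exact h2 _ ⟨g, rfl⟩
  have h5 : orderOf (μ x) = p ^ (u + 1) :=
    orderOf_eq_prime_pow (by rwa [← map_pow]) (h4 x)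
  have : NeZero (p ^ (u + 1)) := ⟨pow_ne_zero _ (Fact.out : p.Prime).ne_zero⟩
  have h6 : IsPrimitiveRoot (μ x) (p ^ (u + 1)) := h5 ▸ IsPrimitiveRoot.orderOf _
  obtain ⟨f, hf⟩ := exists_hom μ x (fun g => by
    rw [h6.zpowers_eq, mem_rootsOfUnity]; exact h4 g) (t := z)
    (by rw [h5]; exact orderOf_dvd_of_pow_eq_one hz)
  exact ⟨f, by simpa using hf x 1 (by simp)⟩

/-- The elements of order dividing `n`. -/
abbrev tors (B : Type*) [CommGroup B] (n : ℕ) : Subgroup B := (powMonoidHom n : B →* B).ker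

theorem mem_tors {B : Type*} [CommGroup B] {n : ℕ} {z : B} : z ∈ tors B n ↔ z ^ n = 1 := by
  simp [tors]

/-- The radical of the composite form is killed by all homomorphisms followed by `χ`. -/
def RadOk (β : A →* A →* B) (χ : B →* ℂˣ) : Prop :=
  ∀ a, (∀ g, χ (β a g) = 1) → ∀ f : A →* B, χ (f a) = 1

/-- The level by level nondegeneracy condition. -/
def Levels (p : ℕ) (β : A →* A →* B) : Prop :=
  ∀ (w : ℕ) (N : Subgroup B), N ≤ tors B (p ^ w) → N.relIndex (tors B (p ^ w)) = p →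
    (tors B (p ^ w) = ⊤ ∨ ∃ z : B, z ^ p ^ (w + 1) = 1 ∧ z ^ p ∉ N) →
    ∀ x : A, x ^ p ^ w = 1 → (∀ y : A, y ^ p ^ w = 1 → β x y ∈ N) →
      ∃ u, tors B (p ^ u) ≤ N ∧ ∃ h y : A, h ^ p ^ u = 1 ∧ x = h * y ^ p

omit [Finite A] in
theorem fill_iff (β : A →* A →* B) :
    (∀ (f : A →* B) a, ∃ g, f a = β a g) ↔ ∀ χ, RadOk β χ := by
  refine ⟨fun h χ a ha f => ?_, fun h f a => ?_⟩
  · obtain ⟨g, hg⟩ := h f a
    rw [hg, ha]
  · by_contra hc
    have : f a ∉ (β a).range := fun ⟨g, hg⟩ => hc ⟨g, hg.symm⟩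
    obtain ⟨χ, h1, h2⟩ := sep _ this
    exact h2 (h χ a (fun g => h1 _ ⟨g, rfl⟩) f)

/-- The form `χ ∘ β`. -/
def form (β : A →* A →* B) (χ : B →* ℂˣ) : A →* A →* ℂˣ := (MonoidHom.compHom χ).comp β

omit [Finite A] [Finite B] in
@[simp] theorem form_apply (β : A →* A →* B) (χ : B →* ℂˣ) (a b : A) :
    form β χ a b = χ (β a b) := rfl

omit [Finite B] in
/-- A character killing level `w` and all `p`-th powers is represented by a `p`-th power. -/
theorem represent_pow [Fact p.Prime] {β : A →* A →* B} (hβ : ∀ a b, β a b = (β b a)⁻¹)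
    {χ : B →* ℂˣ} (hQ : RadOk β (χ ^ p)) {w : ℕ} {z : B} (hz : z ^ p ^ (w + 1) = 1)
    (hz' : χ (z ^ p) ≠ 1) (ν : A →* ℂˣ) (h1 : ∀ a, a ^ p ^ w = 1 → ν a = 1)
    (h2 : ∀ a, ν (a ^ p) = 1) : ∃ y, ∀ a, χ (β (y ^ p) a) = ν a := by
  obtain ⟨y, hy⟩ := represent (form β (χ ^ p)) (fun a b => by simp [hβ a b]) ν fun a ha => by
    by_cases hc : ∃ h y : A, h ^ p ^ w = 1 ∧ a = h * y ^ p
    · obtain ⟨h, y, hh, rfl⟩ := hc
      rw [map_mul, h1 h hh, h2, one_mul]
    · obtain ⟨f, hf⟩ := exists_hom_apply hz hc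
      have := hQ a ha f
      rw [hf] at this
      exact absurd (by simpa using this) hz'
  exact ⟨y, fun a => by simpa using hy a⟩

theorem levels_of_radOk [Fact p.Prime] {β : A →* A →* B} (hβ : ∀ a b, β a b = (β b a)⁻¹)
    (hnd : ∀ a, (∀ b, β a b = 1) → a = 1) (hQ : ∀ χ, RadOk β χ) : Levels p β := by
  classical
  intro w N hN hi hc x hx hxN
  have hp : p.Prime := Fact.out
  have hpN : ∀ z : B, z ^ p ^ w = 1 → z ^ p ∈ N := fun z hz => by
    have := Subgroup.pow_index_mem (N.subgroupOf (tors B (p ^ w))) ⟨z, mem_tors.2 hz⟩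
    rw [← Subgroup.relIndex, hi] at this
    exact this
  obtain ⟨z0, hz0, hz0N⟩ : ∃ z ∈ tors B (p ^ w), z ∉ N := by
    by_contra h
    push Not at h
    rw [Subgroup.relIndex_eq_one.2 h] at hi
    exact hp.one_lt.ne hi
  obtain ⟨χ, h1, h2⟩ := sep N hz0N
  have hker : ∀ z : B, z ^ p ^ w = 1 → χ z = 1 → z ∈ N := by
    have hle : N ≤ χ.ker ⊓ tors B (p ^ w) := le_inf h1 hN
    have hmul := Subgroup.relIndex_mul_relIndex N _ _ hle inf_le_right
    rw [hi] at hmul
    rcases (Nat.dvd_prime hp).1 (Dvd.intro _ hmul) with h | h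
    · exact fun z hz hz' => Subgroup.relIndex_eq_one.1 h ⟨hz', mem_tors.2 hz⟩
    · rw [h] at hmul
      have := Subgroup.relIndex_eq_one.1 (Nat.eq_of_mul_eq_mul_left hp.pos (hmul.trans (mul_one p).symm))
      exact absurd (this hz0).1 h2
  obtain ⟨y, hy⟩ : ∃ y, ∀ a, χ (β (y ^ p) a) = χ (β x a) := by
    rcases hc with hc | ⟨z, hz, hzN⟩
    · refine ⟨1, fun a => ?_⟩
      have : a ^ p ^ w = 1 := hnd _ fun b => by
        have : β a b ∈ tors B (p ^ w) := hc ▸ mem_top _
        simpa using mem_tors.1 this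
      simp [h1 _ (hxN a this)]
    · refine represent_pow hβ (hQ _) hz (fun h => hzN (hker _ ?_ h)) (form β χ x)
        (fun a ha => h1 _ (hxN a ha)) fun a => ?_
      · rw [← pow_mul, ← pow_succ', hz]
      · rw [form_apply, map_pow]
        refine h1 _ (hpN _ ?_)
        rw [← MonoidHom.pow_apply, ← map_pow, hx]
        simp
  have hex : ∃ u, ∃ z : B, z ^ p ^ u = 1 ∧ χ z ≠ 1 := ⟨w, z0, mem_tors.1 hz0, h2⟩
  have hw : Nat.find hex ≤ w := Nat.find_min' hex ⟨z0, mem_tors.1 hz0, h2⟩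
  obtain ⟨z, hz, hz'⟩ := Nat.find_spec hex
  obtain ⟨u, hu⟩ : ∃ u, Nat.find hex = u + 1 := by
    refine Nat.exists_eq_succ_of_ne_zero fun h => hz' ?_
    rw [h] at hz
    simp at hz
    simp [hz]
  rw [hu] at hz hw
  refine ⟨u, fun t ht => ?_, ?_⟩
  · have ht' := mem_tors.1 ht
    refine hker t ?_ ?_
    · obtain ⟨k, rfl⟩ : ∃ k, w = u + k := ⟨w - u, by omega⟩
      rw [pow_add, pow_mul, ht', one_pow]
    · by_contra h
      exact Nat.find_min hex (by omega : u < Nat.find hex) ⟨t, ht', h⟩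
  · by_contra hcon
    have : ¬ ∃ h y' : A, h ^ p ^ u = 1 ∧ x / y ^ p = h * y' ^ p := by
      rintro ⟨h, y', hh, e⟩
      refine hcon ⟨h, y' * y, hh, ?_⟩
      rw [mul_pow, ← mul_assoc, ← e]
      simp
    obtain ⟨f, hf⟩ := exists_hom_apply hz this
    have := hQ χ (x / y ^ p) (fun g => by
      rw [map_div, MonoidHom.div_apply, map_div, hy, div_self']) f
    exact hz' (hf ▸ this)

omit [Finite B] in
theorem radOk_step [Fact p.Prime] {β : A →* A →* B} (hβ : ∀ a b, β a b = (β b a)⁻¹)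
    (hL : Levels p β) {c : ℕ} (hA : ∀ a : A, a ^ p ^ c = 1) (hB : ∀ b : B, b ^ p ^ c = 1)
    {χ : B →* ℂˣ} (hQ : RadOk β (χ ^ p)) : RadOk β χ := by
  classical
  have hp : p.Prime := Fact.out
  intro a ha f
  by_contra hne
  obtain ⟨w, h1, ⟨t, ht, ht'⟩, h3⟩ : ∃ w, (∀ t : B, t ^ p ^ w = 1 → χ (t ^ p) = 1) ∧
      (∃ t : B, t ^ p ^ w = 1 ∧ χ t ≠ 1) ∧
      ((tors B (p ^ w) = ⊤ ∧ ∀ a : A, a ^ p ^ w = 1) ∨
        ∃ z : B, z ^ p ^ (w + 1) = 1 ∧ χ (z ^ p) ≠ 1) := by
    by_cases hc : ∃ z : B, χ (z ^ p) ≠ 1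
    · obtain ⟨z, hz⟩ := hc
      have hex : ∃ v, ∃ z : B, z ^ p ^ v = 1 ∧ χ (z ^ p) ≠ 1 := ⟨c, z, hB z, hz⟩
      obtain ⟨z, hz, hz'⟩ := Nat.find_spec hex
      obtain ⟨w, hw⟩ : ∃ w, Nat.find hex = w + 1 := by
        refine Nat.exists_eq_succ_of_ne_zero fun h => hz' ?_
        rw [h] at hz
        simp at hz
        simp [hz]
      rw [hw] at hz
      refine ⟨w, fun t ht => ?_, ⟨z ^ p, by rw [← pow_mul, ← pow_succ', hz], hz'⟩,
        Or.inr ⟨z, hz, hz'⟩⟩
      by_contra h
      exact Nat.find_min hex (by omega : w < Nat.find hex) ⟨t, ht, h⟩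
    · push Not at hc
      exact ⟨c, fun t _ => hc t, ⟨f a, hB _, hne⟩,
        Or.inl ⟨eq_top_iff.2 fun b _ => mem_tors.2 (hB b), hA⟩⟩
  have hidx : (χ.ker ⊓ tors B (p ^ w)).relIndex (tors B (p ^ w)) = p := by
    rw [Subgroup.inf_relIndex_right, Subgroup.relIndex_ker]
    have : NeZero p := ⟨hp.ne_zero⟩
    have hle : (tors B (p ^ w)).map χ ≤ rootsOfUnity p ℂ := by
      rintro _ ⟨s, hs, rfl⟩
      rw [mem_rootsOfUnity, ← map_pow]
      exact h1 s (mem_tors.1 hs)
    have hd := Subgroup.card_dvd_of_le hle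
    rw [HasEnoughRootsOfUnity.natCard_rootsOfUnity] at hd
    refine ((Nat.dvd_prime hp).1 hd).resolve_left fun h => ht' ?_
    rw [Subgroup.card_eq_one] at h
    exact (Subgroup.mem_bot).1 (h ▸ ⟨t, mem_tors.2 ht, rfl⟩)
  have hLw := hL w _ inf_le_right hidx
    (h3.imp And.left fun ⟨z, hz, hz'⟩ => ⟨z, hz, fun h => hz' h.1⟩)
  obtain ⟨y, hy⟩ := represent (form β (χ ^ p)) (fun a b => by simp [hβ a b])
    ((χ ^ p).comp f) fun a ha => hQ a ha f
  set f' : A →* B := f / β y with hf'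
  have hν : ∀ a, χ (f' (a ^ p)) = 1 := fun a => by
    have := hy a
    simp only [form_apply, MonoidHom.pow_apply, MonoidHom.comp_apply] at this
    simp [hf', this]
  let H := tors A (p ^ w)
  have hH : ∀ (x : H) (b : A), β x b ^ p ^ w = 1 := fun x b => by
    rw [← MonoidHom.pow_apply, ← map_pow, mem_tors.1 x.2]
    simp
  obtain ⟨h, hh⟩ := represent (A := H)
    ((MonoidHom.domRestrictHom H ℂˣ).comp ((form β χ).comp H.subtype))
    (fun a b => by simp [hβ a b]) ((χ.comp f').comp H.subtype) fun x hx => by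
      obtain ⟨u, hu, h, y', hh, e⟩ := hLw x (mem_tors.1 x.2) fun b hb =>
        ⟨hx ⟨b, mem_tors.2 hb⟩, mem_tors.2 (hH x b)⟩
      change χ (f' x) = 1
      rw [e, map_mul, map_mul, hν, mul_one]
      exact (hu (mem_tors.2 (by rw [← map_pow, hh, map_one]))).1
  have hh' : ∀ b : A, b ^ p ^ w = 1 → (χ.comp f' / form β χ h) b = 1 := fun b hb => by
    have : χ (β h b) = χ (f' b) := hh ⟨b, mem_tors.2 hb⟩
    simp only [MonoidHom.div_apply, MonoidHom.comp_apply, form_apply, this, div_self']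
  obtain ⟨y', hy'⟩ : ∃ y', ∀ b, χ (β y' b) = (χ.comp f' / form β χ h) b := by
    rcases h3 with ⟨-, h3⟩ | ⟨z, hz, hz'⟩
    · exact ⟨1, fun b => by rw [hh' b (h3 b)]; simp⟩
    · obtain ⟨y', hy'⟩ := represent_pow hβ hQ hz hz' _ hh' fun b => by
        simp only [MonoidHom.div_apply, MonoidHom.comp_apply, form_apply, hν]
        rw [map_pow, h1 _ (hH h b), div_self']
      exact ⟨_, hy'⟩
  have hz : ∀ g, χ (β g a) = 1 := fun g => by rw [hβ, map_inv, ha, inv_one]
  have := hy' a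
  simp only [MonoidHom.div_apply, MonoidHom.comp_apply, form_apply, hf', map_div, hz,
    div_one] at this
  exact hne this.symm

theorem fill_iff_levels [Fact p.Prime] {β : A →* A →* B} (hβ : ∀ a b, β a b = (β b a)⁻¹)
    (hnd : ∀ a, (∀ b, β a b = 1) → a = 1) {c : ℕ} (hA : ∀ a : A, a ^ p ^ c = 1)
    (hB : ∀ b : B, b ^ p ^ c = 1) : (∀ (f : A →* B) a, ∃ g, f a = β a g) ↔ Levels p β := by
  rw [fill_iff]
  refine ⟨levels_of_radOk hβ hnd, fun hL => ?_⟩
  have key : ∀ k, ∀ χ : B →* ℂˣ, (∀ b, χ b ^ p ^ k = 1) → RadOk β χ := by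
    intro k
    induction k with
    | zero =>
      intro χ h a _ f
      simpa using h (f a)
    | succ k ih =>
      intro χ h
      exact radOk_step hβ hL hA hB (ih _ fun b => by
        rw [MonoidHom.pow_apply, ← pow_mul, ← pow_succ', h])
  exact fun χ => key c χ fun b => by rw [← map_pow, hB, map_one]

end Pool.Agent.Work.MP_7393fc_al
end

-- merged part: Pool.Agent.Work.MP_7393fc_al.Main
section
/-!
Class two groups whose central automorphisms preserve conjugacy classes.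
-/

namespace Pool.Agent.Work.MP_7393fc_al

open Subgroup
open scoped IsMulCommutative commutatorElement

variable {G : Type*} [Group G]

theorem comm_mem (h2 : commutator G ≤ center G) (x y : G) : ⁅x, y⁆ ∈ center G :=
  h2 (commutator_mem_commutator (mem_top x) (mem_top y))

/-- The commutator map of a group of class at most two. -/
def cm (h2 : commutator G ≤ center G) : G →* G →* center G :=
  MonoidHom.mk' (fun x => MonoidHom.mk' (fun y => ⟨⁅x, y⁆, comm_mem h2 x y⟩) fun y z =>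
    Subtype.ext (by
      change ⁅x, y * z⁆ = ⁅x, y⁆ * ⁅x, z⁆
      rw [commutatorElement_mul_right_eq_mul_conj, mul_assoc ⁅x, y⁆,
        mem_center_iff.1 (comm_mem h2 x z) y]
      group)) fun x y => MonoidHom.ext fun z => Subtype.ext (by
      change ⁅x * y, z⁆ = ⁅x, z⁆ * ⁅y, z⁆
      rw [commutatorElement_mul_left_eq_conj_mul, mem_center_iff.1 (comm_mem h2 y z) x,
        mem_center_iff.1 (comm_mem h2 y z) ⁅x, z⁆]
      group)

theorem cm_coe (h2 : commutator G ≤ center G) (x y : G) : (cm h2 x y : G) = ⁅x, y⁆ := rfl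

theorem cm_skew (h2 : commutator G ≤ center G) (x y : G) : cm h2 x y = (cm h2 y x)⁻¹ :=
  Subtype.ext (commutatorElement_inv y x).symm

theorem cm_center (h2 : commutator G ≤ center G) {x : G} (hx : x ∈ center G) (y : G) :
    cm h2 x y = 1 :=
  Subtype.ext (commutatorElement_eq_one_iff_mul_comm.2 (mem_center_iff.1 hx y).symm)

/-- The commutator form on the central quotient. -/
def beta (h2 : commutator G ≤ center G) : G ⧸ center G →* G ⧸ center G →* center G :=
  QuotientGroup.lift _ (MonoidHom.mk' (fun x => QuotientGroup.lift _ (cm h2 x) fun y hy => by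
      rw [MonoidHom.mem_ker, cm_skew, cm_center h2 hy, inv_one])
    fun x y => MonoidHom.ext fun z => by
      induction z using QuotientGroup.induction_on
      simp) fun x hx => MonoidHom.ext fun z => by
      induction z using QuotientGroup.induction_on
      simp [cm_center h2 hx]

theorem beta_mk (h2 : commutator G ≤ center G) (x y : G) :
    beta h2 (x : G ⧸ center G) (y : G ⧸ center G) = cm h2 x y := rfl

theorem isConj_iff_cm (h2 : commutator G ≤ center G) (x : G) (z : center G) :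
    IsConj x (x * z) ↔ ∃ g, z = cm h2 x g := by
  have key : ∀ c : G, c * x * c⁻¹ = x * cm h2 x c⁻¹ := fun c => by
    rw [map_inv, ← cm_skew, mem_center_iff.1 (cm h2 c x).2 x, cm_coe, commutatorElement_def]
    group
  rw [isConj_iff]
  refine ⟨fun ⟨c, hc⟩ => ⟨c⁻¹, Subtype.ext (mul_left_cancel (hc.symm.trans (key c)))⟩,
    fun ⟨g, hg⟩ => ⟨g⁻¹, by rw [key, inv_inv, hg]⟩⟩

/-- Every central automorphism preserves conjugacy classes. -/
def CentralPres (G : Type*) [Group G] : Prop :=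
  ∀ α : MulAut G, (∀ x, x⁻¹ * α x ∈ center G) → ∀ x, IsConj x (α x)

theorem hom_fill [Finite G] (h2 : commutator G ≤ center G) (H : CentralPres G)
    (f : G →* center G) (hf : ∀ y : G, y * f y = 1 → y = 1) (x : G) : ∃ g, f x = cm h2 x g := by
  let φ : G →* G := MonoidHom.mk' (fun x => x * f x) fun x y => by
    rw [map_mul, Subgroup.coe_mul, mul_assoc, mul_assoc, ← mul_assoc y,
      mem_center_iff.1 (f x).2 y, mul_assoc]
  have hφ : Function.Bijective φ :=
    Finite.injective_iff_bijective.1 ((injective_iff_map_eq_one φ).2 hf)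
  exact (isConj_iff_cm h2 x _).1 (H (MulEquiv.ofBijective φ hφ)
    (fun y => by change y⁻¹ * (y * f y) ∈ _; simp) x)

theorem exists_gen [Finite G] (μ : G →* ℂˣ) : ∃ x, ∀ g, μ g ∈ zpowers (μ x) := by
  have : Finite μ.range := Finite.of_surjective _ μ.rangeRestrict_surjective
  obtain ⟨⟨_, x, rfl⟩, hx⟩ := IsCyclic.exists_generator (α := μ.range)
  refine ⟨x, fun g => ?_⟩
  obtain ⟨k, hk⟩ := hx ⟨μ g, g, rfl⟩
  exact ⟨k, congrArg Subtype.val hk⟩

theorem center_eq [Finite G] {p : ℕ} [Fact p.Prime] (hG : IsPGroup p G)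
    (h1 : commutator G ≠ ⊥) (h2 : commutator G ≤ center G) (H : CentralPres G) :
    center G = commutator G := by
  have hp : p.Prime := Fact.out
  have hmem : ∀ x g, (cm h2 x g : G) ∈ commutator G := fun x g =>
    commutator_mem_commutator (mem_top x) (mem_top g)
  have hord : ∀ (μ : G →* ℂˣ) (x : G), ∃ k, orderOf (μ x) = p ^ k := fun μ x => by
    obtain ⟨k, hk⟩ := hG x
    obtain ⟨j, -, hj⟩ := (Nat.dvd_prime_pow hp).1
      (orderOf_dvd_of_pow_eq_one (by rw [← map_pow, hk, map_one] : μ x ^ p ^ k = 1))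
    exact ⟨j, hj⟩
  have step1 : ∀ z : center G, z ^ p = 1 → (z : G) ∈ commutator G := fun z hz => by
    have : IsMulCommutative (G ⧸ center G) :=
      Subgroup.Normal.quotient_commutative_iff_commutator_le.2 h2
    obtain ⟨a, ha⟩ : ∃ a : G, a ∉ center G := by
      by_contra h
      push Not at h
      refine h1 ((commutator_eq_bot_iff_center_eq_top G).2 ?_)
      exact eq_top_iff.2 fun a _ => h a
    obtain ⟨μ, -, hμ⟩ := sep (⊥ : Subgroup (G ⧸ center G)) (x := a)
      (by rwa [mem_bot, QuotientGroup.eq_one_iff])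
    obtain ⟨x, hx⟩ := exists_gen (μ.comp (QuotientGroup.mk' _))
    obtain ⟨k, hk⟩ := hord (μ.comp (QuotientGroup.mk' _)) x
    have hk0 : k ≠ 0 := by
      rintro rfl
      rw [pow_zero, orderOf_eq_one_iff] at hk
      have := hx a
      rw [hk, zpowers_one_eq_bot, mem_bot] at this
      exact hμ this
    obtain ⟨f, hf⟩ := exists_hom _ x hx (t := z) (by
      rw [hk]
      exact (orderOf_dvd_of_pow_eq_one hz).trans (dvd_pow_self p hk0))
    obtain ⟨g, hg⟩ := hom_fill h2 H f (fun y hy => by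
      have hy' : y ∈ center G := by
        rw [mul_eq_one_iff_eq_inv.1 hy]
        exact inv_mem (f y).2
      have := hf y 0 (by simp [(QuotientGroup.eq_one_iff y).2 hy'])
      simpa [this] using hy) x
    rw [← show f x = z by simpa using hf x 1 (by simp), hg]
    exact hmem x g
  have step2 : ∀ (f : G →* center G) (x : G), ∃ g, f x = cm h2 x g := fun f =>
    hom_fill h2 H f fun y hy => by
      by_contra hne
      obtain ⟨k, hk⟩ := hG.exists_orderOf_eq_pow y
      obtain ⟨k, rfl⟩ : ∃ j, k = j + 1 := Nat.exists_eq_succ_of_ne_zero (by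
        rintro rfl
        exact hne (orderOf_eq_one_iff.1 (by simpa using hk)))
      have hy' : f y = ⟨y, by
          rw [mul_eq_one_iff_eq_inv.1 hy]
          exact inv_mem (f y).2⟩⁻¹ := Subtype.ext (eq_inv_of_mul_eq_one_right hy)
      have h3 := step1 (f y ^ p ^ k)⁻¹ (by
        rw [inv_pow, ← pow_mul, ← pow_succ, ← map_pow, ← hk, pow_orderOf_eq_one, map_one, inv_one])
      have h4 : (((f y ^ p ^ k)⁻¹ : center G) : G) = y ^ p ^ k := by
        rw [hy']
        simp
      have h5 := Abelianization.commutator_subset_ker f (h4 ▸ h3)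
      rw [MonoidHom.mem_ker, map_pow] at h5
      rw [h5] at h4
      have := orderOf_dvd_of_pow_eq_one (by simpa using h4.symm : y ^ p ^ k = 1)
      rw [hk, Nat.pow_dvd_pow_iff_le_right hp.one_lt] at this
      omega
  refine le_antisymm (fun z hz => ?_) h2
  by_contra hzc
  obtain ⟨μ, -, hμ⟩ := sep (⊥ : Subgroup (Abelianization G)) (x := Abelianization.of z)
    (by rwa [mem_bot, ← MonoidHom.mem_ker, Abelianization.ker_of])
  obtain ⟨x, hx⟩ := exists_gen (μ.comp Abelianization.of)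
  obtain ⟨k, hk⟩ := hord (μ.comp Abelianization.of) x
  obtain ⟨j, hj⟩ := hG.exists_orderOf_eq_pow z
  have hj' : orderOf (⟨z, hz⟩ : center G) = p ^ j := by rw [Subgroup.orderOf_mk, hj]
  rcases le_total j k with h | h
  · obtain ⟨f, hf⟩ := exists_hom _ x hx (t := (⟨z, hz⟩ : center G)) (by
      rw [hk, hj']
      exact pow_dvd_pow p h)
    obtain ⟨g, hg⟩ := step2 f x
    have h3 : f x = ⟨z, hz⟩ := by simpa using hf x 1 (by simp)
    have := hmem x g
    rw [← hg, h3] at this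
    exact hzc this
  · have ho : orderOf ((⟨z, hz⟩ : center G) ^ p ^ (j - k)) = p ^ k := by
      rw [orderOf_pow_of_dvd (pow_ne_zero _ hp.ne_zero) (hj' ▸ pow_dvd_pow p (Nat.sub_le _ _)),
        hj', Nat.pow_div (Nat.sub_le _ _) hp.pos, Nat.sub_sub_self h]
    obtain ⟨f, hf⟩ := exists_hom _ x hx (t := (⟨z, hz⟩ : center G) ^ p ^ (j - k)) (by
      rw [hk, ho])
    obtain ⟨m, hm⟩ := hx z
    obtain ⟨g, hg⟩ := step2 f z
    rw [cm_center h2 hz, hf z m hm.symm, ← orderOf_dvd_iff_zpow_eq_one, ho, ← hk,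
      orderOf_dvd_iff_zpow_eq_one] at hg
    exact hμ (hm.symm.trans hg)

theorem centralPres_iff [Finite G] {p : ℕ} [Fact p.Prime] (hG : IsPGroup p G)
    (h1 : commutator G ≠ ⊥) (h2 : commutator G ≤ center G) :
    CentralPres G ↔ center G = commutator G ∧
      ∀ (f : G ⧸ center G →* center G) a, ∃ g, f a = beta h2 a g := by
  refine ⟨fun H => ⟨center_eq hG h1 h2 H, fun f a => ?_⟩, fun ⟨h3, H⟩ α hα x => ?_⟩
  · induction a using QuotientGroup.induction_on with | H x =>
    obtain ⟨g, hg⟩ := hom_fill h2 H (f.comp (QuotientGroup.mk' _)) (fun y hy => by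
      have hy' : y ∈ center G := by
        rw [mul_eq_one_iff_eq_inv.1 hy]
        exact inv_mem (Subtype.prop _)
      simpa [(QuotientGroup.eq_one_iff y).2 hy'] using hy) x
    exact ⟨g, hg⟩
  · let f : G →* center G := MonoidHom.mk' (fun x => ⟨x⁻¹ * α x, hα x⟩) fun x y =>
      Subtype.ext (by
        change (x * y)⁻¹ * α (x * y) = x⁻¹ * α x * (y⁻¹ * α y)
        rw [← mul_assoc, ← mem_center_iff.1 (hα x) y⁻¹, map_mul]
        group)
    obtain ⟨g, hg⟩ := H (QuotientGroup.lift _ f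
      (h3.le.trans (Abelianization.commutator_subset_ker f))) x
    induction g using QuotientGroup.induction_on with | H g =>
    have := (isConj_iff_cm h2 x (f x)).2 ⟨g, hg⟩
    simpa [f] using this

theorem mem_centralTorsion {n : ℕ} {z : G} :
    z ∈ centralTorsion G n ↔ z ∈ center G ∧ z ^ n = 1 := Iff.rfl

theorem subgroupOf_centralTorsion (n : ℕ) :
    (centralTorsion G n).subgroupOf (center G) = tors (center G) n := by
  ext z
  rw [mem_subgroupOf, mem_centralTorsion, mem_tors]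
  exact ⟨fun h => Subtype.ext (by simpa using h.2), fun h => ⟨z.2, by simpa using congrArg Subtype.val h⟩⟩

theorem mk_pow_eq_one (x : G) (n : ℕ) : (x : G ⧸ center G) ^ n = 1 ↔ x ^ n ∈ center G := by
  rw [← QuotientGroup.mk_pow, QuotientGroup.eq_one_iff]

theorem levels_iff (h2 : commutator G ≤ center G) [IsMulCommutative (G ⧸ center G)] (p : ℕ) :
    Levels p (beta h2) ↔ ∀ (w : ℕ) (N : Subgroup G), N ≤ centralTorsion G (p ^ w) →
      N.relIndex (centralTorsion G (p ^ w)) = p →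
      (centralTorsion G (p ^ w) = center G ∨ ∃ z ∈ centralTorsion G (p ^ (w + 1)), z ^ p ∉ N) →
      ∀ x : G, x ^ p ^ w ∈ center G → (∀ y : G, y ^ p ^ w ∈ center G → ⁅x, y⁆ ∈ N) →
        ∃ u : ℕ, centralTorsion G (p ^ u) ≤ N ∧
          ∃ h y : G, h ^ p ^ u ∈ center G ∧ x = h * y ^ p := by
  have hle : ∀ n, centralTorsion G n ≤ center G := fun n z hz => hz.1
  constructor
  · intro H w N hN hi hc x hx hxN
    obtain ⟨u, hu, h, y, hh, e⟩ := H w (N.subgroupOf (center G))
      (subgroupOf_centralTorsion (G := G) _ ▸ subgroupOf_mono _ hN)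
      (by rw [← subgroupOf_centralTorsion, relIndex_subgroupOf (hle _), hi])
      (hc.imp (fun h => by rw [← subgroupOf_centralTorsion, h, subgroupOf_self])
        fun ⟨z, hz, hz'⟩ => ⟨⟨z, hz.1⟩, Subtype.ext (by simpa using hz.2), hz'⟩)
      x ((mk_pow_eq_one x _).2 hx) fun y hy => by
        induction y using QuotientGroup.induction_on with | H y =>
        exact hxN y ((mk_pow_eq_one y _).1 hy)
    induction h using QuotientGroup.induction_on with | H h =>
    induction y using QuotientGroup.induction_on with | H y =>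
    refine ⟨u, fun z hz => hu (x := ⟨z, hz.1⟩) (mem_tors.2 (Subtype.ext (by simpa using hz.2))),
      x * (y ^ p)⁻¹, y, ?_, by simp⟩
    rw [← mk_pow_eq_one, QuotientGroup.mk_mul, QuotientGroup.mk_inv, QuotientGroup.mk_pow, e]
    simpa using hh
  · intro H w N hN hi hc x hx hxN
    induction x using QuotientGroup.induction_on with | H x =>
    have hN' : (N.map (center G).subtype).subgroupOf (center G) = N :=
      comap_map_eq_self_of_injective (subtype_injective _) N
    have hmem : ∀ z : center G, (z : G) ∈ N.map (center G).subtype ↔ z ∈ N := fun z => by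
      rw [← mem_subgroupOf, hN']
    obtain ⟨u, hu, h, y, hh, e⟩ := H w (N.map (center G).subtype)
      (by
        rintro _ ⟨z, hz, rfl⟩
        exact ⟨z.2, by simpa using congrArg Subtype.val (mem_tors.1 (hN hz))⟩)
      (by rw [← relIndex_subgroupOf (hle _), hN', subgroupOf_centralTorsion, hi])
      (hc.imp (fun h => le_antisymm (hle _) (by
          rw [← subgroupOf_eq_top, subgroupOf_centralTorsion, h]))
        fun ⟨z, hz, hz'⟩ => ⟨z, ⟨z.2, by simpa using congrArg Subtype.val hz⟩,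
          fun h => hz' ((hmem _).1 h)⟩)
      x ((mk_pow_eq_one x _).1 hx) fun y hy =>
        (hmem (cm h2 x y)).2 (hxN y ((mk_pow_eq_one y _).2 hy))
    refine ⟨u, fun z hz => (hmem z).1 (hu ⟨z.2, by
      simpa using congrArg Subtype.val (mem_tors.1 hz)⟩), h, y, (mk_pow_eq_one h _).2 hh, ?_⟩
    rw [e, QuotientGroup.mk_mul, QuotientGroup.mk_pow]

theorem main [Finite G] {p : ℕ} [Fact p.Prime] (hG : IsPGroup p G)
    (h1 : commutator G ≠ ⊥) (h2 : commutator G ≤ center G) :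
    (∀ α : MulAut G, (∀ x, x⁻¹ * α x ∈ center G) ↔ ∀ x, IsConj x (α x)) ↔
      center G = commutator G ∧ ∀ (w : ℕ) (N : Subgroup G), N ≤ centralTorsion G (p ^ w) →
      N.relIndex (centralTorsion G (p ^ w)) = p →
      (centralTorsion G (p ^ w) = center G ∨ ∃ z ∈ centralTorsion G (p ^ (w + 1)), z ^ p ∉ N) →
      ∀ x : G, x ^ p ^ w ∈ center G → (∀ y : G, y ^ p ^ w ∈ center G → ⁅x, y⁆ ∈ N) →
        ∃ u : ℕ, centralTorsion G (p ^ u) ≤ N ∧
          ∃ h y : G, h ^ p ^ u ∈ center G ∧ x = h * y ^ p := by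
  have : IsMulCommutative (G ⧸ center G) :=
    Subgroup.Normal.quotient_commutative_iff_commutator_le.2 h2
  obtain ⟨c, hc⟩ := IsPGroup.iff_card.1 hG
  have hpow : ∀ g : G, g ^ p ^ c = 1 := fun g => hc ▸ pow_card_eq_one'
  rw [← levels_iff h2, ← fill_iff_levels (c := c), ← centralPres_iff hG h1 h2]
  · refine ⟨fun H α => (H α).1, fun H α => ⟨H α, fun h x => ?_⟩⟩
    obtain ⟨c, hc⟩ := isConj_iff.1 (h x)
    have : x⁻¹ * α x = ⁅x⁻¹, c⁆ := by
      rw [← hc, commutatorElement_def]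
      group
    exact this ▸ comm_mem h2 _ _
  · intro a b
    induction a using QuotientGroup.induction_on
    induction b using QuotientGroup.induction_on
    exact cm_skew h2 _ _
  · intro a ha
    induction a using QuotientGroup.induction_on with | H a =>
    rw [QuotientGroup.eq_one_iff, mem_center_iff]
    exact fun g => (commutatorElement_eq_one_iff_mul_comm.1 (congrArg Subtype.val (ha g))).symm
  · intro a
    induction a using QuotientGroup.induction_on with | H a =>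
    rw [mk_pow_eq_one, hpow]
    exact one_mem _
  · exact fun b => Subtype.ext (by simpa using hpow b)

end Pool.Agent.Work.MP_7393fc_al
end
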