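import Mathlib

/-!
Presentations of class two `p`-groups given by tables of integers.
-/

namespace Pool.Agent.Work.MP_7393fc_al

open scoped commutatorElement

variable {d k : ℕ}

/-- The word `z_1 ^ e_1 ⋯ z_k ^ e_k` in the free group on `x_1, …, x_d, z_1, …, z_k`. -/
def zword (d : ℕ) (e : Fin k → ℤ) : FreeGroup (Fin d ⊕ Fin k) :=
  (List.ofFn fun t => FreeGroup.of (Sum.inr t) ^ e t).prod

/-- The relators: `z_t ^ p ^ c_t = 1`, every `z_t` commutes with every generator,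
`x_r ^ p ^ a_r = ∏ z_t ^ π_rt` and `[x_r, x_s] = ∏ z_t ^ (σ_rst p ^ (c_t - min (a_r, a_s)))`,
the subtraction being truncated at zero. -/
def relators (p : ℕ) (a : Fin d → ℕ) (c : Fin k → ℕ) (σ : Fin d → Fin d → Fin k → ℤ)
    (π : Fin d → Fin k → ℤ) : Set (FreeGroup (Fin d ⊕ Fin k)) :=
  {w | (∃ t, w = FreeGroup.of (Sum.inr t) ^ p ^ c t) ∨
    (∃ (t : Fin k) (g : Fin d ⊕ Fin k),
      w = ⁅FreeGroup.of (Sum.inr t : Fin d ⊕ Fin k), FreeGroup.of g⁆) ∨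
    (∃ r, w = FreeGroup.of (Sum.inl r) ^ p ^ a r * (zword d (π r))⁻¹) ∨
    ∃ r s : Fin d, w = ⁅FreeGroup.of (Sum.inl r : Fin d ⊕ Fin k),
        FreeGroup.of (Sum.inl s : Fin d ⊕ Fin k)⁆ *
      (zword d fun t => σ r s t * (p : ℤ) ^ (c t - min (a r) (a s)))⁻¹}

/-- The admissible tables. -/
def Admissible (p : ℕ) (a : Fin d → ℕ) (c : Fin k → ℕ) (σ : Fin d → Fin d → Fin k → ℤ) : Prop :=
  0 < d ∧ (∀ r, 1 ≤ a r) ∧ (∀ t, 1 ≤ c t) ∧ Finset.univ.sup a = Finset.univ.sup c ∧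
  (∀ r t, σ r r t = 0) ∧ (∀ r s t, σ s r t = -σ r s t) ∧
  ∀ (w : ℕ) (φ : Fin k → ZMod p), φ ≠ 0 → ((∀ t, c t ≤ w) ∨ ∃ t, φ t ≠ 0 ∧ w < c t) →
    (Matrix.of fun r s : {r : Fin d // a r ≤ w ∧ ∃ t, φ t ≠ 0 ∧ min (c t) w ≤ a r} =>
      ∑ t, if min (c t) w ≤ min (a r) (a s) then φ t * (σ r s t : ZMod p) else 0).det ≠ 0

end Pool.Agent.Work.MP_7393fc_al
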