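import Mathlib

/-!
When two tables describe the same group.
-/

namespace Pool.Agent.Work.MP_7393fc_al

variable {d k d' k' : ℕ}

/-- The change of generators `x_r ↦ ∏ x'_i ^ X_ri ∏ z'_u ^ Y_ru`, `z_t ↦ ∏ z'_u ^ W_tu` carries the
first table to the second one. -/
def Related (p : ℕ) (a : Fin d → ℕ) (c : Fin k → ℕ) (σ : Fin d → Fin d → Fin k → ℤ)
    (π : Fin d → Fin k → ℤ) (a' : Fin d' → ℕ) (c' : Fin k' → ℕ)
    (σ' : Fin d' → Fin d' → Fin k' → ℤ) (π' : Fin d' → Fin k' → ℤ) : Prop :=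
  ∑ r, a r + ∑ t, c t = ∑ i, a' i + ∑ u, c' u ∧
  ∃ (X M : Fin d → Fin d' → ℤ) (Y : Fin d → Fin k' → ℤ) (W : Fin k → Fin k' → ℤ),
    (∃ N : Matrix (Fin d') (Fin d) (ZMod p), N * (Matrix.of fun r i => (X r i : ZMod p)) = 1) ∧
    (∀ r i, (p : ℤ) ^ a r * X r i = (p : ℤ) ^ a' i * M r i) ∧
    (∀ t u, (p : ℤ) ^ c' u ∣ (p : ℤ) ^ c t * W t u) ∧
    (∀ r s u, ∑ t, σ r s t * (p : ℤ) ^ (c t - min (a r) (a s)) * W t u ≡
      ∑ i, ∑ j, X r i * X s j * (σ' i j u * (p : ℤ) ^ (c' u - min (a' i) (a' j)))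
        [ZMOD (p : ℤ) ^ c' u]) ∧
    ∀ r u, ∑ t, π r t * W t u ≡ ∑ i, M r i * π' i u + (p : ℤ) ^ a r * Y r u -
      ((p ^ a r).choose 2 : ℕ) * ∑ i, ∑ j, if i < j then
        X r i * X r j * (σ' i j u * (p : ℤ) ^ (c' u - min (a' i) (a' j))) else 0
          [ZMOD (p : ℤ) ^ c' u]

end Pool.Agent.Work.MP_7393fc_al
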