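import Mathlib
import Pool.Agent.Work.MP_7393fc_al.Main
import Pool.Agent.Work.MP_7393fc_al.PDefs
import Pool.Agent.Work.MP_7393fc_al.RDefs

-- merged part: Pool.Agent.Work.MP_7393fc_al.Basis
section
/-!
Bases of finite abelian `p`-groups.
-/

namespace Pool.Agent.Work.MP_7393fc_al

variable {A B : Type*} [CommGroup A] [CommGroup B] {ι : Type*} [Fintype ι] {p : ℕ}

/-- `x` is a basis of `A` with `x r` of order `p ^ a r`. -/
structure IsBasis (p : ℕ) (a : ι → ℕ) (x : ι → A) : Prop where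
  span : ∀ g, ∃ n : ι → ℤ, g = ∏ r, x r ^ n r
  rel : ∀ n : ι → ℤ, ∏ r, x r ^ n r = 1 ↔ ∀ r, (p : ℤ) ^ a r ∣ n r

theorem prod_zpow_add (x : ι → A) (n m : ι → ℤ) :
    ∏ r, x r ^ (n r + m r) = (∏ r, x r ^ n r) * ∏ r, x r ^ m r := by
  simp [zpow_add, Finset.prod_mul_distrib]

theorem prod_zpow_sub (x : ι → A) (n m : ι → ℤ) :
    ∏ r, x r ^ (n r - m r) = (∏ r, x r ^ n r) / ∏ r, x r ^ m r := by
  simp [zpow_sub, Finset.prod_mul_distrib, div_eq_mul_inv]

theorem prod_zpow_pow (x : ι → A) (n : ι → ℤ) (q : ℕ) :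
    (∏ r, x r ^ n r) ^ q = ∏ r, x r ^ (n r * q) := by
  rw [← Finset.prod_pow]
  exact Finset.prod_congr rfl fun r _ => by rw [zpow_mul, zpow_natCast]

theorem prod_zpow_single [DecidableEq ι] (x : ι → A) (r : ι) (n : ℤ) :
    ∏ s, x s ^ (Pi.single r n : ι → ℤ) s = x r ^ n := by
  rw [Finset.prod_eq_single r (fun s _ hs => by simp [hs]) (by simp)]
  simp

namespace IsBasis

variable {a : ι → ℕ} {x : ι → A}

theorem eq_iff (h : IsBasis p a x) (n m : ι → ℤ) :
    ∏ r, x r ^ n r = ∏ r, x r ^ m r ↔ ∀ r, (p : ℤ) ^ a r ∣ n r - m r := by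
  rw [← h.rel, prod_zpow_sub, div_eq_one]

theorem zpow_eq_one (h : IsBasis p a x) (r : ι) (n : ℤ) : x r ^ n = 1 ↔ (p : ℤ) ^ a r ∣ n := by
  classical
  rw [← prod_zpow_single x r n, h.rel]
  refine ⟨fun H => by simpa using H r, fun H s => ?_⟩
  by_cases hs : s = r
  · subst hs; simpa using H
  · simp [hs]

theorem pow_order (h : IsBasis p a x) (r : ι) : x r ^ p ^ a r = 1 := by
  rw [← zpow_natCast, h.zpow_eq_one]
  simp

theorem exists_lift (h : IsBasis p a x) (m : ι → B) (hm : ∀ r, m r ^ p ^ a r = 1) :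
    ∃ f : A →* B, ∀ r, f (x r) = m r := by
  classical
  have key : ∀ n n' : ι → ℤ, ∏ r, x r ^ n r = ∏ r, x r ^ n' r →
      ∏ r, m r ^ n r = ∏ r, m r ^ n' r := fun n n' e => by
    refine Finset.prod_congr rfl fun r _ => ?_
    obtain ⟨q, hq⟩ := (h.eq_iff n n').1 e r
    have : n r = n' r + (p ^ a r : ℕ) * q := by push_cast; linarith
    rw [this, zpow_add, zpow_mul, zpow_natCast, hm, one_zpow, mul_one]
  choose n hn using h.span
  refine ⟨MonoidHom.mk' (fun g => ∏ r, m r ^ n g r) fun g g' => ?_, fun r => ?_⟩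
  · rw [← prod_zpow_add]
    exact key _ _ (by rw [prod_zpow_add, ← hn, ← hn, ← hn])
  · have := key (n (x r)) (Pi.single r 1) (by rw [← hn, prod_zpow_single, zpow_one])
    rw [prod_zpow_single, zpow_one] at this
    exact this

theorem map_prod_zpow (f : A →* B) (n : ι → ℤ) :
    f (∏ r, x r ^ n r) = ∏ r, f (x r) ^ n r := by
  simp [map_prod]

theorem hom_ext {M : Type*} [Group M] (h : IsBasis p a x) {f g : A →* M}
    (e : ∀ r, f (x r) = g (x r)) : f = g := by
  ext u
  obtain ⟨n, rfl⟩ := h.span u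
  exact Subgroup.prod_mem (f.eqLocus g) fun r _ => zpow_mem (show x r ∈ f.eqLocus g from e r) _

theorem nonempty_equiv (h : IsBasis p a x) {y : ι → B} (h' : IsBasis p a y) :
    ∃ e : A ≃* B, ∀ r, e (x r) = y r := by
  obtain ⟨f, hf⟩ := h.exists_lift y h'.pow_order
  obtain ⟨g, hg⟩ := h'.exists_lift x h.pow_order
  exact ⟨MonoidHom.toMulEquiv f g (h.hom_ext fun r => by simp [hf, hg])
    (h'.hom_ext fun r => by simp [hf, hg]), hf⟩

theorem map (h : IsBasis p a x) (e : A ≃* B) : IsBasis p a fun r => e (x r) := by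
  refine ⟨fun g => ?_, fun n => ?_⟩
  · obtain ⟨n, hn⟩ := h.span (e.symm g)
    exact ⟨n, by simpa [map_prod] using congrArg e hn⟩
  · rw [← h.rel, ← e.map_eq_one_iff]
    simp [map_prod]

theorem reindex (h : IsBasis p a x) {κ : Type*} [Fintype κ] (e : κ ≃ ι) :
    IsBasis p (fun r => a (e r)) fun r => x (e r) := by
  refine ⟨fun g => ?_, fun n => ?_⟩
  · obtain ⟨n, rfl⟩ := h.span g
    exact ⟨fun r => n (e r), (e.prod_comp fun r => x r ^ n r).symm⟩
  · have := h.rel fun r => n (e.symm r)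
    rw [← e.prod_comp] at this
    simp only [Equiv.symm_apply_apply] at this
    rw [this]
    exact ⟨fun H r => by simpa using H (e r), fun H r => by simpa using H (e.symm r)⟩

theorem pow_eq_one_iff [Fact p.Prime] (h : IsBasis p a x) (n : ι → ℤ) (w : ℕ) :
    (∏ r, x r ^ n r) ^ p ^ w = 1 ↔ ∀ r, (p : ℤ) ^ (a r - w) ∣ n r := by
  have hp : (p : ℤ) ≠ 0 := by exact_mod_cast (Fact.out : p.Prime).ne_zero
  rw [prod_zpow_pow, h.rel]
  refine forall_congr' fun r => ?_
  push_cast
  rcases le_total (a r) w with H | H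
  · rw [Nat.sub_eq_zero_of_le H]
    simpa using (pow_dvd_pow (p : ℤ) H).mul_left _
  · conv_lhs => rw [← Nat.sub_add_cancel H, pow_add]
    exact mul_dvd_mul_iff_right (pow_ne_zero _ hp)

theorem mem_low_iff [Fact p.Prime] (h : IsBasis p a x) (n : ι → ℤ) (u : ℕ) :
    (∃ g y : A, g ^ p ^ u = 1 ∧ ∏ r, x r ^ n r = g * y ^ p) ↔ ∀ r, u < a r → (p : ℤ) ∣ n r := by
  classical
  constructor
  · rintro ⟨g, y, hg, e⟩ r hr
    obtain ⟨m, rfl⟩ := h.span g
    obtain ⟨l, rfl⟩ := h.span y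
    rw [prod_zpow_pow, ← prod_zpow_add, h.eq_iff] at e
    have h1 : (p : ℤ) ∣ m r :=
      (dvd_pow_self _ (by omega)).trans ((h.pow_eq_one_iff m u).1 hg r)
    have h2 : (p : ℤ) ∣ n r - (m r + l r * p) := (dvd_pow_self _ (by omega)).trans (e r)
    have : n r = (n r - (m r + l r * p)) + m r + l r * p := by ring
    rw [this]
    exact (h2.add h1).add (Dvd.intro_left _ rfl)
  · intro H
    refine ⟨∏ r, x r ^ (if u < a r then 0 else n r), ∏ r, x r ^ (if u < a r then n r / p else 0),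
      (h.pow_eq_one_iff _ u).2 fun r => ?_, ?_⟩
    · split_ifs with hr
      · simp
      · rw [Nat.sub_eq_zero_of_le (by omega)]; simp
    · rw [prod_zpow_pow, ← prod_zpow_add]
      refine Finset.prod_congr rfl fun r _ => ?_
      split_ifs with hr
      · rw [zero_add, Int.ediv_mul_cancel (H r hr)]
      · simp

end IsBasis

theorem isBasis_pi [DecidableEq ι] [Fact p.Prime] (a : ι → ℕ) :
    IsBasis (A := ∀ r, Multiplicative (ZMod (p ^ a r))) p a
      fun r => Pi.mulSingle r (Multiplicative.ofAdd 1) := by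
  have key : ∀ n : ι → ℤ, (∏ r, (Pi.mulSingle r (Multiplicative.ofAdd 1) :
      ∀ r, Multiplicative (ZMod (p ^ a r))) ^ n r) =
      fun r => Multiplicative.ofAdd (n r : ZMod (p ^ a r)) := fun n => by
    ext r
    rw [Finset.prod_apply, Finset.prod_eq_single r (fun s _ hs => by
      simp [Pi.mulSingle_eq_of_ne hs.symm]) (by simp)]
    simp [← ofAdd_zsmul]
  refine ⟨fun g => ⟨fun r => ((g r).toAdd.cast : ℤ), ?_⟩, fun n => ?_⟩
  · rw [key]
    ext r
    simp
  · rw [key, funext_iff]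
    refine forall_congr' fun r => ?_
    rw [Pi.one_apply, ofAdd_eq_one, ZMod.intCast_zmod_eq_zero_iff_dvd]
    simp

theorem IsBasis.equiv_pi [DecidableEq ι] [Fact p.Prime] {a : ι → ℕ} {x : ι → A}
    (h : IsBasis p a x) : Nonempty (A ≃* ∀ r, Multiplicative (ZMod (p ^ a r))) :=
  ⟨(h.nonempty_equiv (isBasis_pi a)).choose⟩

theorem exists_isBasis [Fact p.Prime] [Finite A] (hA : IsPGroup p A) :
    ∃ (d : ℕ) (a : Fin d → ℕ) (x : Fin d → A), (∀ r, 1 ≤ a r) ∧ IsBasis p a x := by
  classical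
  obtain ⟨ι, _, n, hn, ⟨e⟩⟩ := CommGroup.equiv_prod_multiplicative_zmod_of_finite A
  have : ∀ i, ∃ b, n i = p ^ b := fun i => by
    obtain ⟨b, hb⟩ := hA (e.symm (Pi.mulSingle i (Multiplicative.ofAdd 1)))
    have h1 := congrFun (congrArg e hb) i
    simp only [map_pow, MulEquiv.apply_symm_apply, Pi.pow_apply, Pi.mulSingle_eq_same, map_one,
      Pi.one_apply] at h1
    rw [← ofAdd_nsmul, ofAdd_eq_one, nsmul_eq_mul, mul_one, ZMod.natCast_eq_zero_iff] at h1
    obtain ⟨j, -, hj⟩ := (Nat.dvd_prime_pow Fact.out).1 h1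
    exact ⟨j, hj⟩
  choose b hb using this
  obtain rfl : n = fun i => p ^ b i := funext hb
  refine ⟨Fintype.card ι, _, _, fun r => ?_,
    ((isBasis_pi b).map e.symm).reindex (Fintype.equivFin ι).symm⟩
  have := hn ((Fintype.equivFin ι).symm r)
  by_contra h
  have h0 : b ((Fintype.equivFin ι).symm r) = 0 := by omega
  simp [h0] at this

end Pool.Agent.Work.MP_7393fc_al
end

-- merged part: Pool.Agent.Work.MP_7393fc_al.Coord
section
/-!
The level conditions in coordinates.
-/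

namespace Pool.Agent.Work.MP_7393fc_al

open Subgroup

variable {A B : Type*} [CommGroup A] [CommGroup B] {p : ℕ}

/-- The level conditions stated with characters. -/
def LevelsC (p : ℕ) (β : A →* A →* B) : Prop :=
  ∀ (w : ℕ) (χ : B →* ℂˣ), (∀ t : B, t ^ p ^ w = 1 → χ (t ^ p) = 1) →
    (∃ t : B, t ^ p ^ w = 1 ∧ χ t ≠ 1) →
    ((∀ t : B, t ^ p ^ w = 1) ∨ ∃ z : B, z ^ p ^ (w + 1) = 1 ∧ χ (z ^ p) ≠ 1) →
    ∀ x : A, x ^ p ^ w = 1 → (∀ y : A, y ^ p ^ w = 1 → χ (β x y) = 1) →
      ∃ u, (∀ t : B, t ^ p ^ u = 1 → χ t = 1) ∧ ∃ h y : A, h ^ p ^ u = 1 ∧ x = h * y ^ p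

theorem pow_pow_mono {t : B} {u w : ℕ} (h : u ≤ w) (ht : t ^ p ^ u = 1) : t ^ p ^ w = 1 := by
  obtain ⟨k, rfl⟩ := Nat.exists_eq_add_of_le h
  rw [pow_add, pow_mul, ht, one_pow]

theorem levels_iff_levelsC [Finite B] [Fact p.Prime] (β : A →* A →* B) :
    Levels p β ↔ LevelsC p β := by
  have hp : p.Prime := Fact.out
  constructor
  · rintro hL w χ h1 ⟨t, ht, ht'⟩ h3 x hx hxN
    have hidx : (χ.ker ⊓ tors B (p ^ w)).relIndex (tors B (p ^ w)) = p := by
      rw [Subgroup.inf_relIndex_right, Subgroup.relIndex_ker]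
      have : NeZero p := ⟨hp.ne_zero⟩
      have hle : (tors B (p ^ w)).map χ ≤ rootsOfUnity p ℂ := by
        rintro _ ⟨s, hs, rfl⟩
        rw [mem_rootsOfUnity, ← map_pow]
        exact h1 s (mem_tors.1 hs)
      have hd := Subgroup.card_dvd_of_le hle
      rw [HasEnoughRootsOfUnity.natCard_rootsOfUnity] at hd
      refine ((Nat.dvd_prime hp).1 hd).resolve_left fun h => ht' ?_
      rw [Subgroup.card_eq_one] at h
      exact (Subgroup.mem_bot).1 (h ▸ ⟨t, mem_tors.2 ht, rfl⟩)
    obtain ⟨u, hu, H⟩ := hL w _ inf_le_right hidx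
      (h3.imp (fun h => eq_top_iff.2 fun b _ => mem_tors.2 (h b))
        fun ⟨z, hz, hz'⟩ => ⟨z, hz, fun h => hz' h.1⟩) x hx fun y hy =>
      ⟨hxN y hy, mem_tors.2 (by rw [← MonoidHom.pow_apply, ← map_pow, hx]; simp)⟩
    exact ⟨u, fun t ht => (hu (mem_tors.2 ht)).1, H⟩
  · intro hL w N hN hi hc x hx hxN
    have hpN : ∀ z : B, z ^ p ^ w = 1 → z ^ p ∈ N := fun z hz => by
      have := Subgroup.pow_index_mem (N.subgroupOf (tors B (p ^ w))) ⟨z, mem_tors.2 hz⟩
      rw [← Subgroup.relIndex, hi] at this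
      exact this
    obtain ⟨z0, hz0, hz0N⟩ : ∃ z ∈ tors B (p ^ w), z ∉ N := by
      by_contra h
      push Not at h
      rw [Subgroup.relIndex_eq_one.2 h] at hi
      exact hp.one_lt.ne hi
    obtain ⟨χ, h1, h2⟩ := sep N hz0N
    have hker : ∀ z : B, z ^ p ^ w = 1 → χ z = 1 → z ∈ N := by
      have hle : N ≤ χ.ker ⊓ tors B (p ^ w) := le_inf h1 hN
      have hmul := Subgroup.relIndex_mul_relIndex N _ _ hle inf_le_right
      rw [hi] at hmul
      rcases (Nat.dvd_prime hp).1 (Dvd.intro _ hmul) with h | h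
      · exact fun z hz hz' => Subgroup.relIndex_eq_one.1 h ⟨hz', mem_tors.2 hz⟩
      · rw [h] at hmul
        have := Subgroup.relIndex_eq_one.1
          (Nat.eq_of_mul_eq_mul_left hp.pos (hmul.trans (mul_one p).symm))
        exact absurd (this hz0).1 h2
    obtain ⟨u, hu, H⟩ := hL w χ (fun t ht => h1 _ (hpN t ht)) ⟨z0, mem_tors.1 hz0, h2⟩
      (hc.imp (fun h t => mem_tors.1 (by rw [h]; exact mem_top t)) fun ⟨z, hz, hzN⟩ =>
        ⟨z, hz, fun h => hzN (hker _ (by rw [← pow_mul, ← pow_succ', hz]) h)⟩)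
      x hx fun y hy => h1 _ (hxN y hy)
    refine ⟨u, fun t ht => hker t ?_ (hu t (mem_tors.1 ht)), H⟩
    rcases le_total u w with h | h
    · exact pow_pow_mono h (mem_tors.1 ht)
    · exact absurd (hu z0 (pow_pow_mono h (mem_tors.1 hz0))) h2

variable {ι κ : Type*} [Fintype ι] [Fintype κ] {a : ι → ℕ} {c : κ → ℕ} {x : ι → A} {z : κ → B}
  {σ : ι → ι → κ → ℤ} {β : A →* A →* B}

theorem zpow_sum' {M : Type*} [CommGroup M] {α : Type*} (s : Finset α) (g : M) (f : α → ℤ) :
    g ^ (∑ i ∈ s, f i) = ∏ i ∈ s, g ^ f i := by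
  classical
  induction s using Finset.induction_on with
  | empty => simp
  | insert i s hi ih => rw [Finset.sum_insert hi, Finset.prod_insert hi, zpow_add, ih]

omit [Fintype κ] in
theorem chi_term {χ : B →* ℂˣ} {ζ : ℂˣ} {w : ℕ} {φ : κ → ℤ}
    (hχ : ∀ t, χ (z t ^ p ^ (c t - w)) = ζ ^ φ t) (t : κ) (q : ℤ) :
    χ (z t) ^ ((p : ℤ) ^ (c t - w) * q) = ζ ^ (φ t * q) := by
  rw [zpow_mul, zpow_mul, ← hχ, map_pow, ← zpow_natCast]
  push_cast
  rfl

omit [Fintype κ] in
theorem chi_term_one {χ : B →* ℂˣ} {ζ : ℂˣ} (hζ : ζ ^ p = 1) {w : ℕ} {φ : κ → ℤ}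
    (hχ : ∀ t, χ (z t ^ p ^ (c t - w)) = ζ ^ φ t) (t : κ) {E : ℤ}
    (h1 : (p : ℤ) ^ (c t - w) ∣ E) (h2 : ¬ (p : ℤ) ∣ φ t → (p : ℤ) ^ (c t - w + 1) ∣ E) :
    χ (z t) ^ E = 1 := by
  by_cases h : (p : ℤ) ∣ φ t
  · obtain ⟨q, rfl⟩ := h1
    obtain ⟨l, hl⟩ := h
    rw [chi_term hχ, hl, mul_assoc, zpow_mul, zpow_natCast, hζ, one_zpow]
  · obtain ⟨q, rfl⟩ := h2 h
    rw [pow_succ, mul_assoc, chi_term hχ, mul_left_comm, zpow_mul, zpow_natCast, hζ, one_zpow]

theorem chi_prod_one {χ : B →* ℂˣ} {ζ : ℂˣ} (hζ : ζ ^ p = 1) {w : ℕ} {φ : κ → ℤ}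
    (hχ : ∀ t, χ (z t ^ p ^ (c t - w)) = ζ ^ φ t) {m : κ → ℤ}
    (h1 : ∀ t, (p : ℤ) ^ (c t - w) ∣ m t)
    (h2 : ∀ t, ¬ (p : ℤ) ∣ φ t → (p : ℤ) ^ (c t - w + 1) ∣ m t) :
    χ (∏ t, z t ^ m t) = 1 := by
  rw [IsBasis.map_prod_zpow]
  exact Finset.prod_eq_one fun t _ => chi_term_one hζ hχ t (h1 t) (h2 t)

/-- The matrix of the level form. -/
def lvl (p : ℕ) (a : ι → ℕ) (c : κ → ℕ) (σ : ι → ι → κ → ℤ) (w : ℕ) (φ : κ → ZMod p) (r s : ι) :
    ZMod p :=
  ∑ t, if min (c t) w ≤ min (a r) (a s) then φ t * (σ r s t : ZMod p) else 0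

theorem chi_beta [Fact p.Prime]
    (hβ : ∀ r s, β (x r) (x s) = ∏ t, z t ^ (σ r s t * (p : ℤ) ^ (c t - min (a r) (a s))))
    {χ : B →* ℂˣ} {ζ : ℂˣ} (hζ : IsPrimitiveRoot ζ p) {w : ℕ} {φ : κ → ℤ}
    (hχ : ∀ t, χ (z t ^ p ^ (c t - w)) = ζ ^ φ t) {n n' : ι → ℤ}
    (hn : ∀ r, (p : ℤ) ^ (a r - w) ∣ n r) (hn' : ∀ r, (p : ℤ) ^ (a r - w) ∣ n' r) :
    χ (β (∏ r, x r ^ n r) (∏ s, x s ^ n' s)) = 1 ↔
      ∑ r, ∑ s, (if a r ≤ w ∧ a s ≤ w then
        (n r : ZMod p) * n' s * lvl p a c σ w (fun t => φ t) r s else 0) = 0 := by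
  have key : χ (β (∏ r, x r ^ n r) (∏ s, x s ^ n' s)) = ζ ^ (∑ r, ∑ s, ∑ t,
      if (a r ≤ w ∧ a s ≤ w) ∧ min (c t) w ≤ min (a r) (a s) then
        n r * n' s * (φ t * σ r s t) else 0) := by
    rw [IsBasis.map_prod_zpow β, MonoidHom.finsetProd_apply, map_prod, zpow_sum']
    refine Finset.prod_congr rfl fun r _ => ?_
    rw [MonoidHom.zpow_apply, IsBasis.map_prod_zpow, ← Finset.prod_zpow, map_prod, zpow_sum']
    refine Finset.prod_congr rfl fun s _ => ?_
    rw [hβ, ← Finset.prod_zpow, ← Finset.prod_zpow, map_prod, zpow_sum']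
    refine Finset.prod_congr rfl fun t _ => ?_
    rw [← zpow_mul, ← zpow_mul, map_zpow]
    split_ifs with h
    · have : c t - min (a r) (a s) = c t - w := by omega
      rw [this, show σ r s t * (p : ℤ) ^ (c t - w) * (n' s * n r) =
        (p : ℤ) ^ (c t - w) * (σ r s t * (n' s * n r)) by ring, chi_term hχ]
      congr 1
      ring
    · rw [zpow_zero]
      have : (p : ℤ) ^ (c t - w + 1) ∣ σ r s t * (p : ℤ) ^ (c t - min (a r) (a s)) * (n' s * n r) := by
        obtain ⟨q, hq⟩ := hn r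
        obtain ⟨q', hq'⟩ := hn' s
        rw [hq, hq', show σ r s t * (p : ℤ) ^ (c t - min (a r) (a s)) *
          ((p : ℤ) ^ (a s - w) * q' * ((p : ℤ) ^ (a r - w) * q)) =
          (p : ℤ) ^ (c t - min (a r) (a s) + (a s - w) + (a r - w)) * (σ r s t * q' * q) by ring]
        exact (pow_dvd_pow _ (by omega)).mul_right _
      exact chi_term_one hζ.pow_eq_one hχ t ((pow_dvd_pow _ (by omega)).trans this) fun _ => this
  rw [key, hζ.zpow_eq_one_iff_dvd, ← ZMod.intCast_zmod_eq_zero_iff_dvd]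
  refine Eq.congr_left ?_
  push_cast
  refine Finset.sum_congr rfl fun r _ => Finset.sum_congr rfl fun s _ => ?_
  by_cases h : a r ≤ w ∧ a s ≤ w
  · simp only [h, true_and, if_true, lvl, Finset.mul_sum, mul_ite, mul_zero]
  · simp [h]

omit [Fintype ι] in
theorem lvl_eq_zero {w : ℕ} {φ : κ → ZMod p} {r s : ι}
    (h : (¬ ∃ t, φ t ≠ 0 ∧ min (c t) w ≤ a r) ∨ ¬ ∃ t, φ t ≠ 0 ∧ min (c t) w ≤ a s) :
    lvl p a c σ w φ r s = 0 := by
  refine Finset.sum_eq_zero fun t _ => ?_
  split_ifs with h'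
  · by_cases h0 : φ t = 0
    · simp [h0]
    · exact absurd h (by
        rintro (h | h)
        exacts [h ⟨t, h0, by omega⟩, h ⟨t, h0, by omega⟩])
  · rfl

/-- The determinant conditions. -/
def Dets (p : ℕ) [DecidableEq ι] (a : ι → ℕ) (c : κ → ℕ) (σ : ι → ι → κ → ℤ) : Prop :=
  ∀ (w : ℕ) (φ : κ → ZMod p), φ ≠ 0 → ((∀ t, c t ≤ w) ∨ ∃ t, φ t ≠ 0 ∧ w < c t) →
    (Matrix.of fun r s : {r : ι // a r ≤ w ∧ ∃ t, φ t ≠ 0 ∧ min (c t) w ≤ a r} =>
      lvl p a c σ w φ r s).det ≠ 0

theorem exists_prim [Fact p.Prime] : ∃ ζ : ℂˣ, IsPrimitiveRoot ζ p := by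
  have hp : p.Prime := Fact.out
  have h := Complex.isPrimitiveRoot_exp p hp.ne_zero
  exact ⟨(h.isUnit hp.ne_zero).unit, h.isUnit_unit hp.ne_zero⟩

theorem sum_sub_eq {w : ℕ} {φ : κ → ZMod p} (f : ι → ZMod p) (s : ι) :
    ∑ r, (if a r ≤ w then f r * lvl p a c σ w φ r s else 0) =
      ∑ r : {r : ι // a r ≤ w ∧ ∃ t, φ t ≠ 0 ∧ min (c t) w ≤ a r}, f r * lvl p a c σ w φ r s := by
  classical
  rw [← Finset.sum_subtype (Finset.univ.filter fun r => a r ≤ w ∧ ∃ t, φ t ≠ 0 ∧ min (c t) w ≤ a r)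
    (by simp) fun r => f r * lvl p a c σ w φ r s, Finset.sum_filter]
  refine Finset.sum_congr rfl fun r _ => ?_
  by_cases h1 : a r ≤ w
  · by_cases h2 : ∃ t, φ t ≠ 0 ∧ min (c t) w ≤ a r
    · rw [if_pos h1, if_pos ⟨h1, h2⟩]
    · rw [if_pos h1, if_neg fun h => h2 h.2, lvl_eq_zero (Or.inl h2), mul_zero]
  · rw [if_neg h1, if_neg fun h => h1 h.1]

theorem dets_of_levelsC [Fact p.Prime] [DecidableEq ι] (hx : IsBasis p a x) (hz : IsBasis p c z)
    (ha : ∀ r, 1 ≤ a r) (hc : ∀ t, 1 ≤ c t)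
    (hβ : ∀ r s, β (x r) (x s) = ∏ t, z t ^ (σ r s t * (p : ℤ) ^ (c t - min (a r) (a s))))
    (hL : LevelsC p β) : Dets p a c σ := by
  classical
  have hp : p.Prime := Fact.out
  intro w φ hφ hw hdet
  rcases Nat.eq_zero_or_pos w with rfl | hw0
  · have : IsEmpty {r : ι // a r ≤ 0 ∧ ∃ t, φ t ≠ 0 ∧ min (c t) 0 ≤ a r} :=
      ⟨fun r => by have := ha r; have := r.2.1; omega⟩
    simp at hdet
  obtain ⟨ζ, hζ⟩ := exists_prim (p := p)
  have hroot : ∀ t, ∃ η : ℂˣ, η ^ p ^ (c t - w) = ζ ^ ((φ t).cast : ℤ) := fun t => by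
    obtain ⟨η, hη⟩ := IsAlgClosed.exists_pow_nat_eq ((ζ ^ ((φ t).cast : ℤ) : ℂˣ) : ℂ)
      (pow_pos hp.pos (c t - w))
    have h0 : η ≠ 0 := by
      rintro rfl
      rw [zero_pow (pow_pos hp.pos _).ne'] at hη
      exact Units.ne_zero _ hη.symm
    exact ⟨Units.mk0 η h0, Units.ext (by simpa using hη)⟩
  choose η hη using hroot
  obtain ⟨χ, hχ0⟩ := hz.exists_lift η fun t => by
    have := hc t
    rw [show c t = (c t - w) + 1 + (c t - (c t - w) - 1) by omega, pow_add, pow_add, pow_mul,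
      pow_mul, hη, pow_one, ← zpow_natCast _ p, ← zpow_mul, mul_comm, zpow_mul, zpow_natCast,
      hζ.pow_eq_one, one_zpow, one_pow]
  have hχ : ∀ t, χ (z t ^ p ^ (c t - w)) = ζ ^ ((φ t).cast : ℤ) := fun t => by
    rw [map_pow, hχ0, hη]
  have hne : ∀ t, φ t ≠ 0 → χ (z t ^ p ^ (c t - w)) ≠ 1 := fun t ht h => by
    rw [hχ, hζ.zpow_eq_one_iff_dvd, ← ZMod.intCast_zmod_eq_zero_iff_dvd] at h
    exact ht (by simpa using h)
  have hzp : ∀ t u v, c t ≤ u + v → (z t ^ p ^ u) ^ p ^ v = 1 := fun t u v h => by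
    rw [← pow_mul, ← pow_add]
    exact pow_pow_mono h (hz.pow_order t)
  obtain ⟨v, hv0, hv⟩ := Matrix.exists_vecMul_eq_zero_iff.2 hdet
  let n : ι → ℤ := fun r =>
    if h : a r ≤ w ∧ ∃ t, φ t ≠ 0 ∧ min (c t) w ≤ a r then ((v ⟨r, h⟩).cast : ℤ) else 0
  have hnv : ∀ r : {r : ι // a r ≤ w ∧ ∃ t, φ t ≠ 0 ∧ min (c t) w ≤ a r}, (n r : ZMod p) = v r :=
    fun r => by simp only [n, dif_pos r.2, ZMod.intCast_zmod_cast]
  have hn : ∀ r, (p : ℤ) ^ (a r - w) ∣ n r := fun r => by
    by_cases h : a r ≤ w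
    · simp [Nat.sub_eq_zero_of_le h]
    · simp [n, h]
  obtain ⟨u, hu, H⟩ := hL w χ (fun t ht => by
      obtain ⟨m, rfl⟩ := hz.span t
      rw [prod_zpow_pow]
      have := (hz.pow_eq_one_iff m w).1 ht
      exact chi_prod_one hζ.pow_eq_one hχ (fun t => (this t).mul_right _) fun t _ => by
        rw [pow_succ]; exact mul_dvd_mul (this t) dvd_rfl)
    (by
      obtain ⟨t, ht⟩ := Function.ne_iff.1 hφ
      exact ⟨_, hzp t _ _ (by omega), hne t ht⟩)
    (hw.imp (fun h t => by
        obtain ⟨m, rfl⟩ := hz.span t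
        exact (hz.pow_eq_one_iff m w).2 fun t => by simp [Nat.sub_eq_zero_of_le (h t)])
      fun ⟨t, ht, h⟩ => ⟨z t ^ p ^ (c t - w - 1), hzp t _ _ (by omega), by
        rw [← pow_mul, ← pow_succ, show c t - w - 1 + 1 = c t - w by omega]
        exact hne t ht⟩)
    (∏ r, x r ^ n r) ((hx.pow_eq_one_iff n w).2 hn) fun y hy => by
      obtain ⟨n', rfl⟩ := hx.span y
      rw [chi_beta hβ hζ hχ hn ((hx.pow_eq_one_iff n' w).1 hy), Finset.sum_comm]
      refine Finset.sum_eq_zero fun s _ => ?_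
      simp only [ZMod.intCast_zmod_cast]
      by_cases hs : a s ≤ w
      · have : ∀ r, (if a r ≤ w ∧ a s ≤ w then (n r : ZMod p) * n' s * lvl p a c σ w φ r s else 0) =
            n' s * if a r ≤ w then (n r : ZMod p) * lvl p a c σ w φ r s else 0 := fun r => by
          simp only [hs, and_true]
          split_ifs <;> ring
        simp only [this]
        rw [← Finset.mul_sum, sum_sub_eq (fun r => (n r : ZMod p))]
        by_cases hs' : ∃ t, φ t ≠ 0 ∧ min (c t) w ≤ a s
        · have := congrFun hv ⟨s, hs, hs'⟩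
          simp only [Matrix.vecMul, dotProduct, Matrix.of_apply, Pi.zero_apply] at this
          simp only [hnv, this, mul_zero]
        · simp [lvl_eq_zero (Or.inr hs')]
      · simp [hs]
  refine hv0 (funext fun r => ?_)
  obtain ⟨t, ht, htr⟩ := r.2.2
  rw [← hnv, Pi.zero_apply, ZMod.intCast_zmod_eq_zero_iff_dvd]
  refine (hx.mem_low_iff n u).1 H r ?_
  by_contra h
  exact hne t ht (hu _ (hzp t _ _ (by omega)))

theorem levelsC_of_dets [Fact p.Prime] [DecidableEq ι] (hx : IsBasis p a x) (hz : IsBasis p c z)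
    (hc : ∀ t, 1 ≤ c t)
    (hβ : ∀ r s, β (x r) (x s) = ∏ t, z t ^ (σ r s t * (p : ℤ) ^ (c t - min (a r) (a s))))
    (hD : Dets p a c σ) : LevelsC p β := by
  classical
  have hp : p.Prime := Fact.out
  have : NeZero p := ⟨hp.ne_zero⟩
  rintro w χ h1 ⟨t1, ht1, ht1'⟩ h3 g hg hgN
  obtain ⟨ζ, hζ⟩ := exists_prim (p := p)
  have hzp : ∀ t u v, c t ≤ u + v → (z t ^ p ^ u) ^ p ^ v = 1 := fun t u v h => by
    rw [← pow_mul, ← pow_add]
    exact pow_pow_mono h (hz.pow_order t)
  have hφ : ∀ t, ∃ e : ℤ, χ (z t ^ p ^ (c t - w)) = ζ ^ e := fun t => by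
    have : χ (z t ^ p ^ (c t - w)) ∈ rootsOfUnity p ℂ := by
      rw [mem_rootsOfUnity, ← map_pow]
      exact h1 _ (hzp t _ _ (by omega))
    rw [← hζ.zpowers_eq] at this
    obtain ⟨e, he⟩ := this
    exact ⟨e, he.symm⟩
  choose φ hχ using hφ
  have hw0 : w ≠ 0 := by
    rintro rfl
    exact ht1' (by rw [show t1 = 1 by simpa using ht1, map_one])
  have hne : ∃ t, ¬ (p : ℤ) ∣ φ t := by
    by_contra h
    push Not at h
    obtain ⟨m, rfl⟩ := hz.span t1
    exact ht1' (chi_prod_one hζ.pow_eq_one hχ ((hz.pow_eq_one_iff m w).1 ht1)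
      fun t ht => absurd (h t) ht)
  have hcast : ∀ t, (φ t : ZMod p) ≠ 0 ↔ ¬ (p : ℤ) ∣ φ t := fun t => by
    rw [Ne, ZMod.intCast_zmod_eq_zero_iff_dvd]
  have hdet := hD w (fun t => φ t) (by
      obtain ⟨t, ht⟩ := hne
      exact Function.ne_iff.2 ⟨t, (hcast t).2 ht⟩)
    (h3.imp (fun h t => by
        have := h (z t)
        rw [← zpow_natCast, hz.zpow_eq_one] at this
        push_cast at this
        exact (pow_dvd_pow_iff (by exact_mod_cast hp.ne_zero)
          (by exact_mod_cast (Nat.prime_iff_prime_int.1 hp).not_isUnit)).1 this)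
      fun ⟨y, hy, hy'⟩ => by
        by_contra h
        push Not at h
        obtain ⟨m, rfl⟩ := hz.span y
        have hm := (hz.pow_eq_one_iff m (w + 1)).1 hy
        rw [prod_zpow_pow] at hy'
        refine hy' (chi_prod_one hζ.pow_eq_one hχ (fun t => ?_) fun t ht => ?_)
        · refine (pow_dvd_pow _ (by omega : c t - w ≤ c t - (w + 1) + 1)).trans ?_
          rw [pow_succ]
          exact mul_dvd_mul (hm t) dvd_rfl
        · rw [Nat.sub_eq_zero_of_le (h t ((hcast t).2 ht))]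
          simp)
  obtain ⟨n, rfl⟩ := hx.span g
  have hn := (hx.pow_eq_one_iff n w).1 hg
  have hv : (fun r : {r : ι // a r ≤ w ∧ ∃ t, (φ t : ZMod p) ≠ 0 ∧ min (c t) w ≤ a r} =>
      (n r : ZMod p)) = 0 := by
    by_contra hv
    refine hdet (Matrix.exists_vecMul_eq_zero_iff.1 ⟨_, hv, funext fun s => ?_⟩)
    have hs : ∀ r, (p : ℤ) ^ (a r - w) ∣ (Pi.single s.1 1 : ι → ℤ) r := fun r => by
      by_cases h : r = s.1
      · subst h
        simp [Nat.sub_eq_zero_of_le s.2.1]
      · simp [h]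
    have := (chi_beta hβ hζ hχ hn hs).1 (hgN _ ((hx.pow_eq_one_iff _ w).2 hs))
    simp only [Matrix.vecMul, dotProduct, Matrix.of_apply, Pi.zero_apply]
    rw [← sum_sub_eq (fun r => (n r : ZMod p))]
    refine Eq.trans (Finset.sum_congr rfl fun r _ => ?_) this
    rw [Finset.sum_eq_single s.1 (fun s' _ h => by simp [h]) (by simp)]
    simp [s.2.1]
  obtain ⟨t0, ht0, hmin⟩ := Finset.exists_min_image (Finset.univ.filter fun t => ¬ (p : ℤ) ∣ φ t)
    (fun t => min (c t) w) (by
      obtain ⟨t, ht⟩ := hne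
      exact ⟨t, by simpa using ht⟩)
  simp only [Finset.mem_filter, Finset.mem_univ, true_and] at ht0 hmin
  have := hc t0
  refine ⟨min (c t0) w - 1, fun y hy => ?_, (hx.mem_low_iff n _).2 fun r hr => ?_⟩
  · obtain ⟨m, rfl⟩ := hz.span y
    have hm := (hz.pow_eq_one_iff m _).1 hy
    exact chi_prod_one hζ.pow_eq_one hχ (fun t => (pow_dvd_pow _ (by omega)).trans (hm t))
      fun t ht => (pow_dvd_pow _ (by have := hmin t ht; omega)).trans (hm t)
  · by_cases h : a r ≤ w
    · rw [← ZMod.intCast_zmod_eq_zero_iff_dvd]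
      exact congrFun hv ⟨r, h, t0, (hcast t0).2 ht0, by omega⟩
    · exact (dvd_pow_self _ (by omega)).trans (hn r)

end Pool.Agent.Work.MP_7393fc_al
end

-- merged part: Pool.Agent.Work.MP_7393fc_al.Model
section
/-!
A concrete central extension with prescribed commutators and powers.
-/

namespace Pool.Agent.Work.MP_7393fc_al

open scoped commutatorElement

variable {C : Type*} [CommGroup C] {d : ℕ}

/-- A bimultiplicative cocycle. -/
def psi (b : Fin d → Fin d → C) (u v : Fin d → ℤ) : C :=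
  ∏ r, ∏ s, (if s < r then b r s else 1) ^ (u r * v s)

theorem psi_add_left (b : Fin d → Fin d → C) (u u' v : Fin d → ℤ) :
    psi b (u + u') v = psi b u v * psi b u' v := by
  simp only [psi, Pi.add_apply, add_mul, zpow_add, Finset.prod_mul_distrib]

theorem psi_add_right (b : Fin d → Fin d → C) (u v v' : Fin d → ℤ) :
    psi b u (v + v') = psi b u v * psi b u v' := by
  simp only [psi, Pi.add_apply, mul_add, zpow_add, Finset.prod_mul_distrib]

theorem psi_zero_left (b : Fin d → Fin d → C) (v : Fin d → ℤ) : psi b 0 v = 1 := by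
  simp [psi]

theorem psi_zero_right (b : Fin d → Fin d → C) (v : Fin d → ℤ) : psi b v 0 = 1 := by
  simp [psi]

theorem psi_single (b : Fin d → Fin d → C) (r s : Fin d) (m n : ℤ) :
    psi b (Pi.single r m) (Pi.single s n) = (if s < r then b r s else 1) ^ (m * n) := by
  rw [psi, Finset.prod_eq_single r (fun r' _ h => by simp [h]) (by simp),
    Finset.prod_eq_single s (fun r' _ h => by simp [h]) (by simp)]
  simp

/-- Pairs with the twisted product. -/
@[ext] structure Heis (b : Fin d → Fin d → C) where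
  u : Fin d → ℤ
  g : C

namespace Heis

variable {b : Fin d → Fin d → C}

instance : Mul (Heis b) := ⟨fun x y => ⟨x.u + y.u, x.g * y.g * psi b x.u y.u⟩⟩
instance : One (Heis b) := ⟨⟨0, 1⟩⟩
instance : Inv (Heis b) := ⟨fun x => ⟨-x.u, x.g⁻¹ * (psi b (-x.u) x.u)⁻¹⟩⟩

theorem mul_u (x y : Heis b) : (x * y).u = x.u + y.u := rfl
theorem mul_g (x y : Heis b) : (x * y).g = x.g * y.g * psi b x.u y.u := rfl
theorem one_u : (1 : Heis b).u = 0 := rfl
theorem one_g : (1 : Heis b).g = 1 := rfl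
theorem inv_u (x : Heis b) : (x⁻¹).u = -x.u := rfl
theorem inv_g (x : Heis b) : (x⁻¹).g = x.g⁻¹ * (psi b (-x.u) x.u)⁻¹ := rfl

instance : Group (Heis b) := Group.ofLeftAxioms
  (fun x y z => Heis.ext (add_assoc _ _ _) (by
    simp only [mul_g, mul_u, psi_add_left, psi_add_right]
    ac_rfl))
  (fun x => Heis.ext (zero_add _) (by simp [mul_g, one_u, one_g, psi_zero_left]))
  (fun x => Heis.ext (neg_add_cancel _) (by
    rw [mul_g, inv_g, inv_u, one_g, mul_right_comm x.g⁻¹]
    simp))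

/-- The central copy of `C`. -/
def inc (b : Fin d → Fin d → C) : C →* Heis b :=
  MonoidHom.mk' (fun g => ⟨0, g⟩) fun g g' =>
    Heis.ext (by simp [mul_u]) (by simp [mul_g, psi_zero_left])

theorem mem_center_of {x : Heis b} (h : ∀ v, psi b x.u v = 1 ∧ psi b v x.u = 1) :
    x ∈ Subgroup.center (Heis b) :=
  Subgroup.mem_center_iff.2 fun y => Heis.ext (add_comm _ _) (by
    rw [mul_g, mul_g, (h _).1, (h _).2, mul_comm y.g])

theorem gen_pow (r : Fin d) (n : ℕ) :
    (⟨Pi.single r 1, 1⟩ : Heis b) ^ n = ⟨Pi.single r n, 1⟩ := by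
  induction n with
  | zero => exact Heis.ext (by simp [one_u]) rfl
  | succ n ih =>
    rw [pow_succ, ih]
    exact Heis.ext (by simp [mul_u, Pi.single_add]) (by simp [mul_g, psi_single])

theorem gen_comm (h0 : ∀ r, b r r = 1) (h1 : ∀ r s, b s r = (b r s)⁻¹) (r s : Fin d) :
    ⁅(⟨Pi.single r 1, 1⟩ : Heis b), (⟨Pi.single s 1, 1⟩ : Heis b)⁆ = inc b (b r s) := by
  rw [commutatorElement_def, mul_inv_eq_iff_eq_mul, mul_inv_eq_iff_eq_mul]
  refine Heis.ext (by simp [mul_u, inc, add_comm]) ?_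
  simp only [mul_g, mul_u, inc, MonoidHom.mk'_apply, psi_zero_left, zero_add, psi_single,
    mul_one, one_mul, zpow_one]
  rcases lt_trichotomy s r with h | rfl | h
  · simp [h, h.not_gt]
  · simp [h0]
  · simp [h, h.not_gt, h1 r s]

end Heis

theorem exists_model (q : Fin d → ℕ) (hq : ∀ r, q r ≠ 0) (b : Fin d → Fin d → C)
    (h0 : ∀ r, b r r = 1) (h1 : ∀ r s, b s r = (b r s)⁻¹) (h2 : ∀ r s, b r s ^ q r = 1)
    (π : Fin d → C) :
    ∃ (N : Subgroup (Heis b)) (_ : N.Normal) (i : C →* Heis b ⧸ N) (x : Fin d → Heis b ⧸ N),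
      Function.Injective i ∧ (∀ g, i g ∈ Subgroup.center _) ∧ (∀ r, x r ^ q r = i (π r)) ∧
      ∀ r s, ⁅x r, x s⁆ = i (b r s) := by
  have h2' : ∀ r s, b r s ^ q s = 1 := fun r s => by rw [h1 s r, inv_pow, h2, inv_one]
  have hz : ∀ n v : Fin d → ℤ, psi b (fun r => q r * n r) v = 1 ∧
      psi b v (fun r => q r * n r) = 1 := fun n v => by
    constructor
    · refine Finset.prod_eq_one fun r _ => Finset.prod_eq_one fun s _ => ?_
      split_ifs
      · rw [mul_assoc, zpow_mul, zpow_natCast, h2, one_zpow]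
      · simp
    · refine Finset.prod_eq_one fun r _ => Finset.prod_eq_one fun s _ => ?_
      split_ifs
      · rw [mul_left_comm, zpow_mul, zpow_natCast, h2', one_zpow]
      · simp
  let ν : Multiplicative (Fin d → ℤ) →* Heis b :=
    MonoidHom.mk' (fun n => ⟨fun r => q r * n.toAdd r, ∏ r, (π r)⁻¹ ^ n.toAdd r⟩) fun n m =>
      Heis.ext (funext fun r => by simp [Heis.mul_u, mul_add]) (by
        rw [Heis.mul_g, (hz _ _).1, mul_one, ← prod_zpow_add]
        rfl)
  have hc : ν.range ≤ Subgroup.center _ := by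
    rintro _ ⟨n, rfl⟩
    exact Heis.mem_center_of (hz _)
  have hN : ν.range.Normal := ⟨fun n hn g => by
    rw [Subgroup.mem_center_iff.1 (hc hn) g]
    simpa using hn⟩
  refine ⟨ν.range, hN, (QuotientGroup.mk' _).comp (Heis.inc b),
    fun r => QuotientGroup.mk' _ ⟨Pi.single r 1, 1⟩, ?_, fun g => ?_, fun r => ?_, fun r s => ?_⟩
  · refine (injective_iff_map_eq_one _).2 fun g hg => ?_
    obtain ⟨n, hn⟩ := (QuotientGroup.eq_one_iff _).1 hg
    have e1 : ∀ r, n.toAdd r = 0 := fun r => by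
      have := congrFun (congrArg Heis.u hn) r
      simpa [ν, Heis.inc, hq r] using this
    have e2 := congrArg Heis.g hn
    simpa [ν, Heis.inc, e1] using e2.symm
  · rw [Subgroup.mem_center_iff]
    intro y
    induction y using QuotientGroup.induction_on with | H y =>
    have := Subgroup.mem_center_iff.1 (Heis.mem_center_of (b := b) (x := Heis.inc b g) fun v =>
      ⟨psi_zero_left _ _, psi_zero_right _ _⟩) y
    exact congrArg (QuotientGroup.mk' ν.range) this
  · rw [← map_pow, MonoidHom.comp_apply, eq_comm, QuotientGroup.mk'_eq_mk']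
    refine ⟨_, ⟨Multiplicative.ofAdd (Pi.single r 1), rfl⟩, ?_⟩
    rw [Heis.gen_pow]
    refine Heis.ext (funext fun s => ?_) ?_
    · by_cases h : s = r
      · subst h; simp [ν, Heis.mul_u, Heis.inc]
      · simp [ν, Heis.mul_u, Heis.inc, h]
    · simp only [ν, Heis.mul_g, Heis.inc, MonoidHom.mk'_apply, psi_zero_left, toAdd_ofAdd]
      rw [prod_zpow_single (fun r => (π r)⁻¹)]
      simp
  · rw [← map_commutatorElement, Heis.gen_comm h0 h1]
    rfl

end Pool.Agent.Work.MP_7393fc_al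
end

-- merged part: Pool.Agent.Work.MP_7393fc_al.Pres
section
/-!
The presented groups attached to admissible tables.
-/

namespace Pool.Agent.Work.MP_7393fc_al

open Subgroup
open scoped IsMulCommutative commutatorElement

section abstract

variable {A B : Type*} [CommGroup A] [CommGroup B] {p : ℕ} {ι κ : Type*} [Fintype ι] [Fintype κ]
  {a : ι → ℕ} {c : κ → ℕ} {x : ι → A} {z : κ → B}

theorem IsBasis.finite [Fact p.Prime] (h : IsBasis p a x) : Finite A := by
  classical
  have : ∀ r, NeZero (p ^ a r) := fun r => ⟨pow_ne_zero _ (Fact.out : p.Prime).ne_zero⟩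
  exact Finite.of_equiv _ h.equiv_pi.some.symm.toEquiv

theorem IsBasis.pow_eq_one [Fact p.Prime] (h : IsBasis p a x) {m : ℕ} (hm : ∀ r, a r ≤ m) (g : A) :
    g ^ p ^ m = 1 := by
  obtain ⟨n, rfl⟩ := h.span g
  exact (h.pow_eq_one_iff n m).2 fun r => by simp [Nat.sub_eq_zero_of_le (hm r)]

theorem IsBasis.le_of_pow [Fact p.Prime] (h : IsBasis p a x) {m : ℕ} {r : ι}
    (hm : x r ^ p ^ m = 1) : a r ≤ m := by
  have hp : p.Prime := Fact.out
  rw [← zpow_natCast, h.zpow_eq_one] at hm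
  push_cast at hm
  exact (pow_dvd_pow_iff (by exact_mod_cast hp.ne_zero)
    (by exact_mod_cast (Nat.prime_iff_prime_int.1 hp).not_isUnit)).1 hm

theorem fill_of_levels [Finite A] [Finite B] [Fact p.Prime] {β : A →* A →* B}
    (hβ : ∀ a b, β a b = (β b a)⁻¹) {m : ℕ} (hA : ∀ a : A, a ^ p ^ m = 1)
    (hB : ∀ b : B, b ^ p ^ m = 1) (hL : Levels p β) (f : A →* B) (g : A) : ∃ y, f g = β g y := by
  have key : ∀ k, ∀ χ : B →* ℂˣ, (∀ b, χ b ^ p ^ k = 1) → RadOk β χ := by
    intro k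
    induction k with
    | zero =>
      intro χ h a _ f
      simpa using h (f a)
    | succ k ih =>
      intro χ h
      exact radOk_step hβ hL hA hB (ih _ fun b => by
        rw [MonoidHom.pow_apply, ← pow_mul, ← pow_succ', h])
  exact (fill_iff β).2 (fun χ => key m χ fun b => by rw [← map_pow, hB, map_one]) f g

theorem IsBasis.exists_single [DecidableEq ι] (hx : IsBasis p a x) (r : ι) {b : B}
    (hb : b ^ p ^ a r = 1) : ∃ f : A →* B, ∀ n : ι → ℤ, f (∏ s, x s ^ n s) = b ^ n r := by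
  obtain ⟨f, hf⟩ := hx.exists_lift (Pi.mulSingle r b) fun s => by
    by_cases h : s = r
    · subst h; simpa using hb
    · simp [h]
  refine ⟨f, fun n => ?_⟩
  rw [IsBasis.map_prod_zpow, Finset.prod_eq_single r (fun s _ h => by simp [hf, h]) (by simp)]
  simp [hf]

theorem nondeg_of_fill [Fact p.Prime] (hx : IsBasis p a x) (hz : IsBasis p c z)
    (hs : ∀ r, ∃ t, a r ≤ c t) {β : A →* A →* B} (hF : ∀ (f : A →* B) g, ∃ y, f g = β g y)
    (g : A) (hg : ∀ y, β g y = 1) : g = 1 := by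
  classical
  have hp : (p : ℤ) ≠ 0 := by exact_mod_cast (Fact.out : p.Prime).ne_zero
  obtain ⟨n, rfl⟩ := hx.span g
  refine (hx.rel n).2 fun r => ?_
  obtain ⟨t, ht⟩ := hs r
  obtain ⟨f, hf⟩ := hx.exists_single r (b := z t ^ p ^ (c t - a r)) (by
    rw [← pow_mul, ← pow_add, Nat.sub_add_cancel ht, hz.pow_order])
  obtain ⟨y, hy⟩ := hF f (∏ s, x s ^ n s)
  rw [hg, hf, ← zpow_natCast, ← zpow_mul, hz.zpow_eq_one] at hy
  push_cast at hy
  rwa [← Nat.sub_add_cancel ht, pow_add, Nat.add_sub_cancel,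
    mul_dvd_mul_iff_left (pow_ne_zero _ hp)] at hy

theorem full_of_fill [Fact p.Prime] (hx : IsBasis p a x) (hz : IsBasis p c z)
    (hs : ∀ t, ∃ r, c t ≤ a r) {β : A →* A →* B} (hF : ∀ (f : A →* B) g, ∃ y, f g = β g y)
    (t : κ) : ∃ g y, z t = β g y := by
  classical
  obtain ⟨r, hr⟩ := hs t
  obtain ⟨f, hf⟩ := hx.exists_single r (b := z t) (pow_pow_mono hr (hz.pow_order t))
  obtain ⟨y, hy⟩ := hF f (∏ s, x s ^ (Pi.single r 1 : ι → ℤ) s)
  exact ⟨_, y, by rw [← hy, hf]; simp⟩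

theorem exists_bimap (hx : IsBasis p a x) (b : ι → ι → B) (h1 : ∀ r s, b s r = (b r s)⁻¹)
    (h2 : ∀ r s, b r s ^ p ^ a r = 1) :
    ∃ β : A →* A →* B, (∀ r s, β (x r) (x s) = b r s) ∧ ∀ g h, β g h = (β h g)⁻¹ := by
  have h2' : ∀ r s, b r s ^ p ^ a s = 1 := fun r s => by rw [h1 s r, inv_pow, h2, inv_one]
  choose f hf using fun r => hx.exists_lift (b r) (h2' r)
  obtain ⟨β, hβ⟩ := hx.exists_lift f fun r => hx.hom_ext fun s => by simp [hf, h2]
  refine ⟨β, fun r s => by rw [hβ, hf], fun g h => ?_⟩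
  have : β = β.flip⁻¹ := hx.hom_ext fun r => hx.hom_ext fun s => by
    simp [hβ, hf, h1 r s]
  conv_lhs => rw [this]
  simp

end abstract

variable {d k p : ℕ} {a : Fin d → ℕ} {c : Fin k → ℕ} {σ : Fin d → Fin d → Fin k → ℤ}
  {π : Fin d → Fin k → ℤ}

theorem map_zword {G C : Type*} [Group G] [CommGroup C] (F : FreeGroup (Fin d ⊕ Fin k) →* G)
    (i : C →* G) (z : Fin k → C) (h : ∀ t, F (FreeGroup.of (Sum.inr t)) = i (z t))
    (e : Fin k → ℤ) : F (zword d e) = i (∏ t, z t ^ e t) := by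
  rw [zword, map_list_prod, List.map_ofFn, ← List.prod_ofFn, map_list_prod, List.map_ofFn]
  congr 2
  ext t
  simp [h]

theorem exists_toGroup {G C : Type*} [Group G] [CommGroup C] (i : C →* G)
    (hi : ∀ g, i g ∈ center G) (x : Fin d → G) (z : Fin k → C) (hz : ∀ t, z t ^ p ^ c t = 1)
    (hx : ∀ r, x r ^ p ^ a r = i (∏ t, z t ^ π r t))
    (hc : ∀ r s, ⁅x r, x s⁆ = i (∏ t, z t ^ (σ r s t * (p : ℤ) ^ (c t - min (a r) (a s))))) :
    ∃ F : PresentedGroup (relators p a c σ π) →* G,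
      (∀ r, F (.of (Sum.inl r)) = x r) ∧ ∀ t, F (.of (Sum.inr t)) = i (z t) := by
  have hw := map_zword (FreeGroup.lift (Sum.elim x fun t => i (z t))) i z (by simp)
  refine ⟨PresentedGroup.toGroup (f := Sum.elim x fun t => i (z t)) ?_,
    fun r => PresentedGroup.toGroup.of _, fun t => PresentedGroup.toGroup.of _⟩
  rintro _ (⟨t, rfl⟩ | ⟨t, g, rfl⟩ | ⟨r, rfl⟩ | ⟨r, s, rfl⟩)
  · rw [map_pow, FreeGroup.lift_apply_of, Sum.elim_inr, ← map_pow, hz, map_one]
  · rw [map_commutatorElement, commutatorElement_eq_one_iff_mul_comm]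
    simpa using (mem_center_iff.1 (hi (z t)) _).symm
  · simp [hw, hx]
  · simp [hw, hc, map_commutatorElement]

theorem z_central (t : Fin k) :
    (.of (Sum.inr t) : PresentedGroup (relators p a c σ π)) ∈ center _ := by
  rw [mem_center_iff]
  intro g
  refine PresentedGroup.generated_by _ (centralizer {PresentedGroup.of (Sum.inr t)}) (fun j => ?_)
    g _ rfl |>.symm
  rintro _ rfl
  have := PresentedGroup.one_of_mem (rels := relators p a c σ π) (Or.inr (Or.inl ⟨t, j, rfl⟩))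
  rwa [map_commutatorElement, commutatorElement_eq_one_iff_mul_comm] at this

/-- The central generators. -/
def zc (p : ℕ) (a : Fin d → ℕ) (c : Fin k → ℕ) (σ : Fin d → Fin d → Fin k → ℤ)
    (π : Fin d → Fin k → ℤ) (t : Fin k) : center (PresentedGroup (relators p a c σ π)) :=
  ⟨.of (Sum.inr t), z_central t⟩

theorem zc_pow (t : Fin k) : zc p a c σ π t ^ p ^ c t = 1 := by
  have := PresentedGroup.one_of_mem (rels := relators p a c σ π) (Or.inl ⟨t, rfl⟩)
  rw [map_pow] at this
  exact Subtype.ext this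

theorem mk_zword (e : Fin k → ℤ) : PresentedGroup.mk (relators p a c σ π) (zword d e) =
    (center _).subtype (∏ t, zc p a c σ π t ^ e t) :=
  map_zword (C := center (PresentedGroup (relators p a c σ π))) (PresentedGroup.mk _)
    (center _).subtype (zc p a c σ π) (fun _ => rfl) e

theorem x_pow (r : Fin d) : (.of (Sum.inl r) : PresentedGroup (relators p a c σ π)) ^ p ^ a r =
    (center _).subtype (∏ t, zc p a c σ π t ^ π r t) := by
  have := PresentedGroup.mk_eq_mk_of_mul_inv_mem (rels := relators p a c σ π)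
    (Or.inr (Or.inr (Or.inl ⟨r, rfl⟩)))
  rwa [map_pow, mk_zword] at this

theorem x_comm (r s : Fin d) :
    ⁅(.of (Sum.inl r) : PresentedGroup (relators p a c σ π)),
      (.of (Sum.inl s) : PresentedGroup (relators p a c σ π))⁆ =
    (center _).subtype
      (∏ t, zc p a c σ π t ^ (σ r s t * (p : ℤ) ^ (c t - min (a r) (a s)))) := by
  have := PresentedGroup.mk_eq_mk_of_mul_inv_mem (rels := relators p a c σ π)
    (Or.inr (Or.inr (Or.inr ⟨r, s, rfl⟩)))
  rwa [map_commutatorElement, mk_zword] at this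

theorem exists_exact {A C : Type*} [CommGroup A] [CommGroup C] {x : Fin d → A} {z : Fin k → C}
    (hx : IsBasis p a x) (hz : IsBasis p c z) (σ : Fin d → Fin d → Fin k → ℤ)
    (π : Fin d → Fin k → ℤ) :
    ∃ (q : PresentedGroup (relators p a c σ π) →* A)
      (j : C →* center (PresentedGroup (relators p a c σ π))),
      (∀ r, q (.of (Sum.inl r)) = x r) ∧ (∀ t, q (.of (Sum.inr t)) = 1) ∧
      (∀ t, j (z t) = zc p a c σ π t) ∧ Function.Surjective q ∧
      ∀ g, q g = 1 ↔ ∃ γ, g = j γ := by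
  obtain ⟨q, hq1, hq2⟩ := exists_toGroup (a := a) (c := c) (σ := σ) (π := π) (1 : C →* A)
    (fun g => by simp) x z hz.pow_order (fun r => by simp [hx.pow_order])
    (fun r s => by simp [commutatorElement_eq_one_iff_mul_comm, mul_comm])
  obtain ⟨j, hj⟩ := hz.exists_lift (zc p a c σ π) zc_pow
  refine ⟨q, j, hq1, hq2, hj, fun g => ?_, fun g => ⟨fun hg => ?_, ?_⟩⟩
  · obtain ⟨n, rfl⟩ := hx.span g
    change _ ∈ q.range
    exact Subgroup.prod_mem _ fun r _ => zpow_mem (show x r ∈ q.range from ⟨_, hq1 r⟩) _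
  · let K := ((center _).subtype.comp j).range
    have hK : K ≤ center _ := by
      rintro _ ⟨γ, rfl⟩
      exact (j γ).2
    have hN : K.Normal := ⟨fun n hn g => by
      rw [mem_center_iff.1 (hK hn) g]
      simpa using hn⟩
    have hmem : ∀ e : Fin k → ℤ, (center _).subtype (∏ t, zc p a c σ π t ^ e t) ∈ K := fun e =>
      ⟨∏ t, z t ^ e t, by simp [map_prod, hj]⟩
    have hgen : ∀ g h : Fin d ⊕ Fin k, ⁅(.of g : PresentedGroup (relators p a c σ π)),
        (.of h : PresentedGroup (relators p a c σ π))⁆ ∈ K := by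
      rintro (r | t) (s | t')
      · rw [x_comm]; exact hmem _
      · rw [commutatorElement_eq_one_iff_mul_comm.2 (mem_center_iff.1 (z_central t') _)]
        exact one_mem _
      · rw [commutatorElement_eq_one_iff_mul_comm.2 (mem_center_iff.1 (z_central t) _).symm]
        exact one_mem _
      · rw [commutatorElement_eq_one_iff_mul_comm.2 (mem_center_iff.1 (z_central t') _)]
        exact one_mem _
    have hcomm : IsMulCommutative (PresentedGroup (relators p a c σ π) ⧸ K) := by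
      refine ⟨⟨fun u v => ?_⟩⟩
      induction u using QuotientGroup.induction_on with | H u =>
      refine (mem_center_iff.1 (PresentedGroup.generated_by _
        ((center _).comap (QuotientGroup.mk' K)) (fun g => ?_) u) v).symm
      rw [mem_comap, mem_center_iff]
      intro v
      induction v using QuotientGroup.induction_on with | H v =>
      refine (PresentedGroup.generated_by _ ((centralizer {QuotientGroup.mk' K (.of g)}).comap
        (QuotientGroup.mk' K)) (fun h => ?_) v _ rfl).symm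
      rintro _ rfl
      rw [← commutatorElement_eq_one_iff_mul_comm, ← map_commutatorElement]
      exact (QuotientGroup.eq_one_iff _).2 (hgen g h)
    obtain ⟨s, hs⟩ := hx.exists_lift (B := PresentedGroup (relators p a c σ π) ⧸ K)
      (fun r => QuotientGroup.mk' K (.of (Sum.inl r))) fun r => by
        rw [← map_pow, x_pow]
        exact (QuotientGroup.eq_one_iff _).2 (hmem _)
    have : s.comp q = QuotientGroup.mk' K := PresentedGroup.ext fun g => by
      rcases g with r | t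
      · rw [MonoidHom.comp_apply, hq1, hs]
      · rw [MonoidHom.comp_apply, hq2, MonoidHom.one_apply, map_one, eq_comm]
        exact (QuotientGroup.eq_one_iff _).2 ⟨z t, by simp [hj, zc]⟩
    have h1 : QuotientGroup.mk' K g = 1 := by rw [← this, MonoidHom.comp_apply, hg, map_one]
    obtain ⟨γ, hγ⟩ := (QuotientGroup.eq_one_iff _).1 h1
    exact ⟨γ, hγ.symm⟩
  · rintro ⟨γ, rfl⟩
    have : q.comp ((center _).subtype.comp j) = 1 := hz.hom_ext fun t => by
      simpa [hj, zc] using hq2 t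
    exact DFunLike.congr_fun this γ

end Pool.Agent.Work.MP_7393fc_al
end

-- merged part: Pool.Agent.Work.MP_7393fc_al.Class
section
/-!
The classification by presentations.
-/

namespace Pool.Agent.Work.MP_7393fc_al

open Subgroup
open scoped IsMulCommutative commutatorElement

theorem aut_iff {G : Type*} [Group G] (h2 : commutator G ≤ center G) :
    (∀ α : MulAut G, (∀ x, x⁻¹ * α x ∈ center G) ↔ ∀ x, IsConj x (α x)) ↔ CentralPres G := by
  refine ⟨fun H α => (H α).1, fun H α => ⟨H α, fun h x => ?_⟩⟩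
  obtain ⟨c, hc⟩ := isConj_iff.1 (h x)
  have : x⁻¹ * α x = ⁅x⁻¹, c⁆ := by
    rw [← hc, commutatorElement_def]
    group
  exact this ▸ comm_mem h2 _ _

variable {d k p : ℕ} {a : Fin d → ℕ} {c : Fin k → ℕ} {σ : Fin d → Fin d → Fin k → ℤ}

theorem exists_le_of_sup {ι κ : Type*} [Fintype ι] [Fintype κ] {a : ι → ℕ} {c : κ → ℕ}
    (ha : ∀ r, 1 ≤ a r) (h : Finset.univ.sup a ≤ Finset.univ.sup c) (r : ι) : ∃ t, a r ≤ c t := by
  obtain ⟨t, -, ht⟩ := (Finset.le_sup_iff (ha r)).1 ((Finset.le_sup (Finset.mem_univ r)).trans h)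
  exact ⟨t, ht⟩

theorem det_inst {n R : Type*} [DecidableEq n] [CommRing R] (i j : Fintype n)
    (M : Matrix n n R) : @Matrix.det n _ i R _ M = @Matrix.det n _ j R _ M := by
  cases Subsingleton.elim i j
  rfl

theorem admissible_iff : Admissible p a c σ ↔
    0 < d ∧ (∀ r, 1 ≤ a r) ∧ (∀ t, 1 ≤ c t) ∧ Finset.univ.sup a = Finset.univ.sup c ∧
      (∀ r t, σ r r t = 0) ∧ (∀ r s t, σ s r t = -σ r s t) ∧ Dets p a c σ := by
  unfold Admissible Dets lvl
  exact and_congr_right' (and_congr_right' (and_congr_right' (and_congr_right' (and_congr_right'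
    (and_congr_right' (forall₄_congr fun _ _ _ _ => (Eq.congr_left (det_inst _ _ _)).not))))))

theorem partA' [Fact p.Prime] (h : Admissible p a c σ) (π : Fin d → Fin k → ℤ) :
    (Finite (PresentedGroup (relators p a c σ π)) ∧
    IsPGroup p (PresentedGroup (relators p a c σ π)) ∧
    commutator (PresentedGroup (relators p a c σ π)) ≠ ⊥ ∧
    commutator (PresentedGroup (relators p a c σ π)) = center _ ∧
    Nonempty (PresentedGroup (relators p a c σ π) ⧸ center _ ≃*
      ∀ r, Multiplicative (ZMod (p ^ a r))) ∧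
    Nonempty (center (PresentedGroup (relators p a c σ π)) ≃*
      ∀ t, Multiplicative (ZMod (p ^ c t))) ∧
    ∀ α : MulAut (PresentedGroup (relators p a c σ π)),
      (∀ x, x⁻¹ * α x ∈ center _) ↔ ∀ x, IsConj x (α x)) ∧
    IsBasis p c (zc p a c σ π) ∧ ∃ (x : Fin d → ∀ r, Multiplicative (ZMod (p ^ a r)))
      (q : PresentedGroup (relators p a c σ π) →* ∀ r, Multiplicative (ZMod (p ^ a r))),
      IsBasis p a x ∧ (∀ r, q (.of (Sum.inl r)) = x r) ∧ Function.Surjective q ∧
      ∀ g, q g = 1 ↔ g ∈ center _ := by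
  have hp : p.Prime := Fact.out
  obtain ⟨hd, ha, hc, hsup, hs0, hs1, hD⟩ := admissible_iff.1 h
  have hx := isBasis_pi (p := p) a
  have hz := isBasis_pi (p := p) c
  generalize (fun r => Pi.mulSingle r (Multiplicative.ofAdd 1) :
    Fin d → ∀ r, Multiplicative (ZMod (p ^ a r))) = x at hx
  generalize (fun r => Pi.mulSingle r (Multiplicative.ofAdd 1) :
    Fin k → ∀ r, Multiplicative (ZMod (p ^ c r))) = z at hz
  have := hx.finite
  have := hz.finite
  let b := fun r s => ∏ t, z t ^ (σ r s t * (p : ℤ) ^ (c t - min (a r) (a s)))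
  have b0 : ∀ r, b r r = 1 := fun r => by simp [b, hs0]
  have b1 : ∀ r s, b s r = (b r s)⁻¹ := fun r s => by
    simp only [b, ← Finset.prod_inv_distrib, hs1 r s, min_comm (a s), neg_mul, zpow_neg]
  have b2 : ∀ r s, b r s ^ p ^ a r = 1 := fun r s =>
    (hz.pow_eq_one_iff _ _).2 fun t => (pow_dvd_pow _ (by omega)).mul_left _
  obtain ⟨β, hβ, hβs⟩ := exists_bimap hx b b1 b2
  have hA := hx.pow_eq_one (m := Finset.univ.sup a) fun r => Finset.le_sup (Finset.mem_univ r)
  have hB := hz.pow_eq_one (m := Finset.univ.sup a) fun t =>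
    hsup ▸ Finset.le_sup (Finset.mem_univ t)
  have hF := fill_of_levels hβs hA hB
    ((levels_iff_levelsC β).2 (levelsC_of_dets hx hz hc hβ hD))
  have hnd := nondeg_of_fill hx hz (exists_le_of_sup ha hsup.le) hF
  have hfull := full_of_fill hx hz (exists_le_of_sup hc hsup.ge) hF
  obtain ⟨q, j, hq1, hq2, hj, hq, hex⟩ := exists_exact hx hz σ π
  have hji : Function.Injective j := by
    obtain ⟨N, _, i, y, hi, hic, hy, hy'⟩ := exists_model (fun r => p ^ a r)
      (fun r => pow_ne_zero _ hp.ne_zero) b b0 b1 b2 fun r => ∏ t, z t ^ π r t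
    obtain ⟨F, -, hF2⟩ := exists_toGroup (a := a) (c := c) (σ := σ) (π := π) i hic y z
      hz.pow_order hy hy'
    have : F.comp ((center _).subtype.comp j) = i := hz.hom_ext fun t => by
      rw [MonoidHom.comp_apply, MonoidHom.comp_apply, hj, ← hF2]
      rfl
    rw [← this] at hi
    exact fun u v e => hi (by simp only [MonoidHom.comp_apply, e])
  have h2 : commutator (PresentedGroup (relators p a c σ π)) ≤ center _ := fun g hg => by
    obtain ⟨γ, rfl⟩ := (hex g).1 (Abelianization.commutator_subset_ker q hg)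
    exact (j γ).2
  have key : ∀ g g', cm h2 g g' = j (β (q g) (q g')) := fun g g' => by
    have : (cm h2).flip g' = j.comp ((β.flip (q g')).comp q) := PresentedGroup.ext fun u => by
      have : cm h2 (.of u) = j.comp ((β (q (.of u))).comp q) := PresentedGroup.ext fun v => by
        simp only [MonoidHom.comp_apply]
        rcases u with r | t
        · rcases v with s | t
          · rw [hq1, hq1, hβ, IsBasis.map_prod_zpow]
            simp only [hj]
            exact Subtype.ext (x_comm r s)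
          · rw [hq2, map_one, map_one, cm_skew,
              cm_center h2 (z_central t), inv_one]
        · rw [hq2, map_one, MonoidHom.one_apply, map_one,
            cm_center h2 (z_central t)]
      exact DFunLike.congr_fun this g'
    exact DFunLike.congr_fun this g
  have hker : ∀ g, q g = 1 ↔ g ∈ center _ := fun g => by
    refine ⟨fun hg => ?_, fun hg => hnd _ fun y => ?_⟩
    · obtain ⟨γ, rfl⟩ := (hex g).1 hg
      exact (j γ).2
    · obtain ⟨y, rfl⟩ := hq y
      exact hji (by rw [← key, cm_center h2 hg, map_one])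
  let eC := MulEquiv.ofBijective j ⟨hji, fun g => by
    obtain ⟨γ, hγ⟩ := (hex g).1 ((hker g).2 g.2)
    exact ⟨γ, Subtype.ext hγ.symm⟩⟩
  let eA := MulEquiv.ofBijective (QuotientGroup.lift (center _) q fun g hg => (hker g).2 hg)
    ⟨(injective_iff_map_eq_one _).2 fun g hg => by
      induction g using QuotientGroup.induction_on with | H g =>
      exact (QuotientGroup.eq_one_iff g).2 ((hker g).1 hg), fun y => by
      obtain ⟨g, rfl⟩ := hq y
      exact ⟨g, rfl⟩⟩
  have hfin : Finite (PresentedGroup (relators p a c σ π)) := by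
    have := Finite.of_equiv _ eC.toEquiv
    have := Finite.of_equiv _ eA.symm.toEquiv
    exact Finite.of_subgroup_quotient (center _)
  have hP : IsPGroup p (PresentedGroup (relators p a c σ π)) := fun g => by
    obtain ⟨γ, hγ⟩ := (hex (g ^ p ^ Finset.univ.sup a)).1 (by rw [map_pow, hA])
    refine ⟨Finset.univ.sup a + Finset.univ.sup a, ?_⟩
    rw [pow_add, pow_mul, hγ, ← SubgroupClass.coe_pow, ← map_pow, hB, map_one]
    rfl
  have h3 : center (PresentedGroup (relators p a c σ π)) = commutator _ := by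
    refine le_antisymm (fun g hg => ?_) h2
    obtain ⟨γ, rfl⟩ := (hex g).1 ((hker g).2 hg)
    obtain ⟨n, rfl⟩ := hz.span γ
    have : (∏ t, z t ^ n t) ∈ (commutator _).comap ((center _).subtype.comp j) :=
      Subgroup.prod_mem _ fun t _ => zpow_mem (by
        obtain ⟨u, v, e⟩ := hfull t
        obtain ⟨u, rfl⟩ := hq u
        obtain ⟨v, rfl⟩ := hq v
        rw [mem_comap, MonoidHom.comp_apply, e, ← key]
        exact commutator_mem_commutator (mem_top u) (mem_top v)) _
    exact this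
  have h1 : commutator (PresentedGroup (relators p a c σ π)) ≠ ⊥ := fun h => by
    obtain ⟨t, -⟩ := exists_le_of_sup ha hsup.le ⟨0, hd⟩
    have : j (z t) = 1 := Subtype.ext (mem_bot.1 (h.le (h3.le (j (z t)).2)))
    have := hz.le_of_pow (m := 0) (r := t) (by
      rw [pow_zero, pow_one]; exact hji (by rw [this, map_one]))
    have := hc t
    omega
  refine ⟨⟨hfin, hP, h1, h3.symm, ⟨eA⟩, ⟨eC.symm⟩, (aut_iff h2).2
    ((centralPres_iff hP h1 h2).2 ⟨h3, fun f g => ?_⟩)⟩,
    (funext hj : (fun t => eC (z t)) = _) ▸ hz.map eC, x, q, hx, hq1, hq, hker⟩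
  obtain ⟨y, hy⟩ := hF (eC.symm.toMonoidHom.comp (f.comp eA.symm.toMonoidHom)) (eA g)
  obtain ⟨y, rfl⟩ := hq y
  induction g using QuotientGroup.induction_on with | H g =>
  refine ⟨y, ?_⟩
  rw [beta_mk, key]
  have : f g = eC (β (eA g) (q y)) := by
    rw [← hy]
    simp
  exact this

theorem partB [Fact p.Prime] (G : Type*) [Group G] [Finite G] (hG : IsPGroup p G)
    (h1 : commutator G ≠ ⊥) (h2 : commutator G ≤ center G)
    (H : ∀ α : MulAut G, (∀ x, x⁻¹ * α x ∈ center G) ↔ ∀ x, IsConj x (α x)) :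
    ∃ (d k : ℕ) (a : Fin d → ℕ) (c : Fin k → ℕ) (σ : Fin d → Fin d → Fin k → ℤ)
      (π : Fin d → Fin k → ℤ), Admissible p a c σ ∧
        Nonempty (G ≃* PresentedGroup (relators p a c σ π)) := by
  have : IsMulCommutative (G ⧸ center G) :=
    Subgroup.Normal.quotient_commutative_iff_commutator_le.2 h2
  obtain ⟨h3, hF⟩ := (centralPres_iff hG h1 h2).1 ((aut_iff h2).1 H)
  obtain ⟨d, a, x, ha, hx⟩ := exists_isBasis (A := G ⧸ center G) (hG.to_quotient _)
  obtain ⟨k, c, z, hc, hz⟩ := exists_isBasis (A := center G) (hG.to_subgroup _)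
  have hskew : ∀ u v, beta h2 u v = (beta h2 v u)⁻¹ := fun u v => by
    induction u using QuotientGroup.induction_on
    induction v using QuotientGroup.induction_on
    exact cm_skew h2 _ _
  have hnd : ∀ u, (∀ v, beta h2 u v = 1) → u = 1 := fun u hu => by
    induction u using QuotientGroup.induction_on with | H u =>
    rw [QuotientGroup.eq_one_iff, mem_center_iff]
    exact fun g => (commutatorElement_eq_one_iff_mul_comm.1 (congrArg Subtype.val (hu g))).symm
  have hex : ∀ r s, ∃ e : Fin k → ℤ, beta h2 (x r) (x s) =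
      ∏ t, z t ^ (e t * (p : ℤ) ^ (c t - min (a r) (a s))) := fun r s => by
    obtain ⟨n, hn⟩ := hz.span (beta h2 (x r) (x s))
    have : (∏ t, z t ^ n t) ^ p ^ min (a r) (a s) = 1 := by
      rw [← hn]
      rcases le_total (a r) (a s) with h | h
      · rw [min_eq_left h, ← MonoidHom.pow_apply, ← map_pow, hx.pow_order, map_one,
          MonoidHom.one_apply]
      · rw [min_eq_right h, ← map_pow, hx.pow_order, map_one]
    choose e he using (hz.pow_eq_one_iff n _).1 this
    exact ⟨e, by rw [hn]; exact Finset.prod_congr rfl fun t _ => by rw [he, mul_comm]⟩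
  choose e he using hex
  choose y hy using fun r => QuotientGroup.mk_surjective (x r)
  let σ : Fin d → Fin d → Fin k → ℤ := fun r s t =>
    if r < s then e r s t else if s < r then -e s r t else 0
  have hβ : ∀ r s, beta h2 (x r) (x s) =
      ∏ t, z t ^ (σ r s t * (p : ℤ) ^ (c t - min (a r) (a s))) := fun r s => by
    rcases lt_trichotomy r s with h | rfl | h
    · simp only [σ, if_pos h, he]
    · simp only [σ, lt_irrefl, if_false, zero_mul, zpow_zero, Finset.prod_const_one]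
      rw [← hy, beta_mk]
      exact Subtype.ext (commutatorElement_self _)
    · simp only [σ, if_neg h.not_gt, if_pos h, neg_mul, zpow_neg, Finset.prod_inv_distrib]
      rw [hskew, he, min_comm]
  choose π hπ using fun r => hz.span ⟨y r ^ p ^ a r, (mk_pow_eq_one _ _).1 (hy r ▸ hx.pow_order r)⟩
  have hA := hx.pow_eq_one (m := Finset.univ.sup a) fun r => Finset.le_sup (Finset.mem_univ r)
  have hB := hz.pow_eq_one (m := Finset.univ.sup c) fun t => Finset.le_sup (Finset.mem_univ t)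
  have hsup : Finset.univ.sup a = Finset.univ.sup c := by
    refine le_antisymm (Finset.sup_le fun r _ => hx.le_of_pow (hnd _ fun v => ?_))
      (Finset.sup_le fun t _ => hz.le_of_pow ?_)
    · rw [map_pow, MonoidHom.pow_apply, hB]
    · have : commutator G ≤ (tors (center G) (p ^ Finset.univ.sup a)).map (center G).subtype := by
        rw [commutator_def, commutator_le]
        refine fun u _ v _ => ⟨cm h2 u v, mem_tors.2 ?_, rfl⟩
        rw [← beta_mk, ← map_pow, hA, map_one]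
      obtain ⟨u, hu, hu'⟩ := this (h3.le (z t).2)
      rw [← show u = z t from Subtype.ext hu']
      exact mem_tors.1 hu
  refine ⟨d, k, a, c, σ, π, admissible_iff.2 ⟨?_, ha, hc, hsup, fun r t => by simp [σ], fun r s t => ?_,
    dets_of_levelsC hx hz ha hc hβ ((levels_iff_levelsC _).1
      ((fill_iff_levels hskew hnd hA (hsup ▸ hB)).1 hF))⟩, ?_⟩
  · rcases Nat.eq_zero_or_pos d with rfl | h
    · refine absurd ((commutator_eq_bot_iff_center_eq_top G).2 (eq_top_iff.2 fun g _ => ?_)) h1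
      obtain ⟨n, hn⟩ := hx.span g
      exact (QuotientGroup.eq_one_iff g).1 (by simpa using hn)
    · exact h
  · rcases lt_trichotomy r s with h | rfl | h
    · simp [σ, h, h.not_gt]
    · simp [σ]
    · simp [σ, h, h.not_gt]
  obtain ⟨F, hF1, hF2⟩ := exists_toGroup (p := p) (a := a) (c := c) (σ := σ) (π := π)
    (center G).subtype (fun g => g.2) y z hz.pow_order (fun r => by rw [← hπ]; rfl)
    fun r s => by rw [← hβ, ← hy, ← hy, beta_mk]; rfl
  obtain ⟨q, j, hq1, hq2, hj, hq, hex⟩ := exists_exact hx hz σ π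
  have e1 : (QuotientGroup.mk' (center G)).comp F = q := PresentedGroup.ext fun g => by
    rcases g with r | t
    · rw [MonoidHom.comp_apply, hF1, hq1, ← hy]
      rfl
    · rw [MonoidHom.comp_apply, hF2, hq2]
      exact (QuotientGroup.eq_one_iff _).2 (z t).2
  have e2 : ∀ γ, F (j γ) = γ := fun γ => by
    have : (F.comp ((center _).subtype.comp j)).codRestrict (center G) (fun γ => by
        rw [← QuotientGroup.eq_one_iff]
        exact (DFunLike.congr_fun e1 _).trans ((hex _).2 ⟨γ, rfl⟩)) = MonoidHom.id _ :=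
      hz.hom_ext fun t => Subtype.ext (by
        change F (j (z t)) = z t
        rw [hj]
        exact hF2 t)
    exact congrArg Subtype.val (DFunLike.congr_fun this γ)
  refine ⟨(MulEquiv.ofBijective F ⟨(injective_iff_map_eq_one _).2 fun g hg => ?_,
    fun g => ?_⟩).symm⟩
  · obtain ⟨γ, rfl⟩ := (hex g).1 (by rw [← e1, MonoidHom.comp_apply, hg, map_one])
    rw [e2] at hg
    rw [show γ = 1 from Subtype.ext hg, map_one]
    rfl
  · obtain ⟨u, hu⟩ := hq g
    rw [← e1] at hu
    obtain ⟨γ, hγ, e⟩ := (QuotientGroup.mk'_eq_mk' _).1 hu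
    exact ⟨u * j ⟨γ, hγ⟩, by rw [map_mul, e2, e]⟩

end Pool.Agent.Work.MP_7393fc_al
end

-- merged part: Pool.Agent.Work.MP_7393fc_al.Iso
section
/-!
Isomorphisms between the presented groups.
-/

namespace Pool.Agent.Work.MP_7393fc_al

open Subgroup
open scoped IsMulCommutative commutatorElement

section collect

variable {G : Type*} [Group G] (h2 : commutator G ≤ center G)

theorem mul_pow_two (a b : G) (n : ℕ) :
    (a * b) ^ n = a ^ n * b ^ n * (cm h2 b a ^ n.choose 2 : center G) := by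
  induction n with
  | zero => simp
  | succ n ih =>
    have h1 : b ^ n * a = a * b ^ n * (cm h2 b a ^ n : center G) := by
      rw [← MonoidHom.pow_apply, ← map_pow, mem_center_iff.1 (cm h2 (b ^ n) a).2, cm_coe,
        commutatorElement_def]
      group
    rw [pow_succ, ih, Nat.choose_succ_succ' n 1, Nat.choose_one_right, pow_add (cm h2 b a),
      Subgroup.coe_mul, mul_assoc _ _ (a * b), ← mem_center_iff.1 (cm h2 b a ^ n.choose 2).2 (a * b), pow_succ a,
      pow_succ b, mul_assoc (a ^ n) (b ^ n), ← mul_assoc (b ^ n), ← mul_assoc (b ^ n), h1,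
      mul_assoc (a * b ^ n), ← mem_center_iff.1 (cm h2 b a ^ n).2 b]
    simp only [mul_assoc]

theorem map_ofFn_prod {C : Type*} [CommGroup C] {d : ℕ} (f : G →* C) (y : Fin d → G) :
    f (List.ofFn y).prod = ∏ i, f (y i) := by
  rw [map_list_prod, List.map_ofFn, List.prod_ofFn]
  rfl

theorem ofFn_pow {d : ℕ} (y : Fin d → G) (n : ℕ) (v : Fin d → center G) (hv : ∀ i, y i ^ n = v i) :
    (List.ofFn y).prod ^ n = ((∏ i, v i) *
      (∏ i, ∏ j, if i < j then cm h2 (y j) (y i) else 1) ^ n.choose 2 : center G) := by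
  induction d with
  | zero => simp
  | succ d ih =>
    rw [List.ofFn_succ, List.prod_cons, mul_pow_two h2, ih _ (fun i => v i.succ) fun i => hv _, hv,
      ← Subgroup.coe_mul, ← Subgroup.coe_mul]
    congr 1
    have := map_ofFn_prod ((cm h2).flip (y 0)) fun i : Fin d => y i.succ
    simp only [MonoidHom.flip_apply] at this
    rw [this]
    simp only [Fin.prod_univ_succ, if_false, Fin.succ_pos, if_true, Fin.not_lt_zero,
      Fin.succ_lt_succ_iff, one_mul, mul_pow]
    ac_rfl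

end collect

section abstract

variable {A B : Type*} [CommGroup A] [CommGroup B] {p : ℕ} {ι κ : Type*} [Fintype ι] [Fintype κ]

theorem prod_prod_zpow (z : κ → B) (e : ι → κ → ℤ) (n : ι → ℤ) :
    ∏ i, (∏ u, z u ^ e i u) ^ n i = ∏ u, z u ^ ∑ i, n i * e i u := by
  simp only [← Finset.prod_zpow, zpow_sum', ← zpow_mul]
  rw [Finset.prod_comm]
  simp only [mul_comm]

theorem surj_of_left_inv [Fact p.Prime] [DecidableEq κ] {a : κ → ℕ} {y : κ → B}
    (hy : IsBasis p a y) {x : ι → A} {X : ι → κ → ℤ} {f : A →* B}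
    (hf : ∀ r, f (x r) = ∏ i, y i ^ X r i) {N : Matrix κ ι (ZMod p)}
    (hN : N * (Matrix.of fun r i => (X r i : ZMod p)) = 1) : Function.Surjective f := by
  have step : ∀ g : B, ∃ u v, g = f u * v ^ p := fun g => by
    obtain ⟨n, rfl⟩ := hy.span g
    let m : ι → ℤ := fun r => ∑ i, n i * ((N i r).cast : ℤ)
    have hm : ∀ j, (p : ℤ) ∣ n j - ∑ r, m r * X r j := fun j => by
      rw [← ZMod.intCast_zmod_eq_zero_iff_dvd]
      simp only [m]
      push_cast
      simp only [Finset.sum_mul]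
      rw [Finset.sum_comm, sub_eq_zero]
      have : ∀ i, ∑ r, (n i : ZMod p) * N i r * X r j = n i * (1 : Matrix κ κ (ZMod p)) i j :=
        fun i => by
          rw [← hN, Matrix.mul_apply, Finset.mul_sum]
          simp only [mul_assoc, Matrix.of_apply]
      simp [this, Matrix.one_apply]
    choose l hl using hm
    refine ⟨∏ r, x r ^ m r, ∏ j, y j ^ l j, ?_⟩
    rw [IsBasis.map_prod_zpow, prod_zpow_pow]
    simp only [hf]
    rw [prod_prod_zpow, ← prod_zpow_add]
    exact Finset.prod_congr rfl fun j _ => by rw [mul_comm (l j), ← hl]; simp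
  have key : ∀ (n : ℕ) (g : B), ∃ u v, g = f u * v ^ p ^ n := fun n => by
    induction n with
    | zero => exact fun g => ⟨1, g, by simp⟩
    | succ n ih =>
      intro g
      obtain ⟨u, v, rfl⟩ := ih g
      obtain ⟨u', v', rfl⟩ := step v
      exact ⟨u * u' ^ p ^ n, v', by
        rw [mul_pow, map_mul, map_pow, ← pow_mul, ← pow_succ', mul_assoc]⟩
  intro g
  obtain ⟨u, v, rfl⟩ := key (Finset.univ.sup a) g
  exact ⟨u, by rw [hy.pow_eq_one fun r => Finset.le_sup (Finset.mem_univ r), mul_one]⟩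

theorem left_inv_of_surj [Fact p.Prime] [DecidableEq κ] {a : κ → ℕ} {y : κ → B}
    (hy : IsBasis p a y) (ha : ∀ i, 1 ≤ a i) {b : ι → ℕ} {x : ι → A} (hx : IsBasis p b x)
    {X : ι → κ → ℤ} {f : A →* B} (hf : ∀ r, f (x r) = ∏ i, y i ^ X r i)
    (hs : Function.Surjective f) :
    ∃ N : Matrix κ ι (ZMod p), N * (Matrix.of fun r i => (X r i : ZMod p)) = 1 := by
  choose g hg using fun i => hs (y i)
  choose n hn using fun i => hx.span (g i)
  refine ⟨Matrix.of fun i r => (n i r : ZMod p), Matrix.ext fun i j => ?_⟩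
  have := hg i
  rw [hn i, IsBasis.map_prod_zpow] at this
  simp only [hf] at this
  rw [prod_prod_zpow, ← zpow_one (y i), ← prod_zpow_single y i 1, hy.eq_iff] at this
  have h := (dvd_pow_self _ (by have := ha j; omega)).trans (this j)
  rw [← ZMod.intCast_zmod_eq_zero_iff_dvd] at h
  push_cast at h
  rw [Matrix.mul_apply, Matrix.one_apply]
  simp only [Matrix.of_apply]
  rw [sub_eq_zero.1 h]
  by_cases e : i = j
  · subst e; simp
  · simp [e, Ne.symm e]

end abstract

variable {d k d' k' p : ℕ} {a : Fin d → ℕ} {c : Fin k → ℕ} {σ : Fin d → Fin d → Fin k → ℤ}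
  {π : Fin d → Fin k → ℤ} {a' : Fin d' → ℕ} {c' : Fin k' → ℕ}
  {σ' : Fin d' → Fin d' → Fin k' → ℤ} {π' : Fin d' → Fin k' → ℤ}

/-- The ordered word in the generators `x`. -/
def xw (p : ℕ) (a : Fin d → ℕ) (c : Fin k → ℕ) (σ : Fin d → Fin d → Fin k → ℤ)
    (π : Fin d → Fin k → ℤ) (n : Fin d → ℤ) : PresentedGroup (relators p a c σ π) :=
  (List.ofFn fun i => (.of (Sum.inl i) : PresentedGroup (relators p a c σ π)) ^ n i).prod

theorem cm_x (h2 : commutator (PresentedGroup (relators p a c σ π)) ≤ center _) (i j : Fin d)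
    (m n : ℤ) : cm h2 (PresentedGroup.of (Sum.inl i) ^ m) (PresentedGroup.of (Sum.inl j) ^ n) =
      ∏ u, zc p a c σ π u ^ (m * n * (σ i j u * (p : ℤ) ^ (c u - min (a i) (a j)))) := by
  have : cm h2 (PresentedGroup.of (Sum.inl i)) (PresentedGroup.of (Sum.inl j)) = _ :=
    Subtype.ext (x_comm i j)
  rw [map_zpow, map_zpow, MonoidHom.zpow_apply, this, ← zpow_mul, ← Finset.prod_zpow]
  exact Finset.prod_congr rfl fun u _ => by rw [← zpow_mul, mul_comm]

theorem cm_xw (h2 : commutator (PresentedGroup (relators p a c σ π)) ≤ center _)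
    (m n : Fin d → ℤ) (u v : center (PresentedGroup (relators p a c σ π))) :
    cm h2 (xw p a c σ π m * u) (xw p a c σ π n * v) = ∏ t, zc p a c σ π t ^
      ∑ i, ∑ j, m i * n j * (σ i j t * (p : ℤ) ^ (c t - min (a i) (a j))) := by
  rw [map_mul, map_mul, MonoidHom.mul_apply, MonoidHom.mul_apply, cm_center h2 u.2,
    cm_center h2 u.2, cm_skew h2 _ v, cm_center h2 v.2, inv_one, mul_one, mul_one, mul_one, xw, xw,
    map_ofFn_prod (cm h2), MonoidHom.finsetProd_apply]
  simp only [map_ofFn_prod, cm_x, zpow_sum']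
  rw [Finset.prod_comm (s := Finset.univ (α := Fin k))]
  exact Finset.prod_congr rfl fun i _ => Finset.prod_comm

theorem xw_pow (h2 : commutator (PresentedGroup (relators p a c σ π)) ≤ center _)
    (hs : ∀ r s t, σ s r t = -σ r s t) (n M : Fin d → ℤ) (Y : Fin k → ℤ) (q : ℕ)
    (hM : ∀ i, (q : ℤ) * n i = (p : ℤ) ^ a i * M i) :
    (xw p a c σ π n * (∏ u, zc p a c σ π u ^ Y u : center _)) ^ q =
      (∏ u, zc p a c σ π u ^ (∑ i, M i * π i u + q * Y u - (q.choose 2 : ℕ) * ∑ i, ∑ j,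
        if i < j then n i * n j * (σ i j u * (p : ℤ) ^ (c u - min (a i) (a j))) else 0) :
          center (PresentedGroup (relators p a c σ π))) := by
  rw [Commute.mul_pow (mem_center_iff.1 (Subtype.prop _) _), xw,
    ofFn_pow h2 _ q (fun i => (∏ u, zc p a c σ π u ^ π i u) ^ M i) fun i => by
      rw [← zpow_natCast, ← zpow_mul, mul_comm, hM, zpow_mul, SubgroupClass.coe_zpow]
      congr 1
      rw [← Nat.cast_pow, zpow_natCast]
      exact x_pow i,
    ← SubgroupClass.coe_pow, ← Subgroup.coe_mul]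
  congr 1
  have : (∏ i, ∏ j, if i < j then cm h2 (PresentedGroup.of (Sum.inl j) ^ n j)
      (PresentedGroup.of (Sum.inl i) ^ n i) else 1) = ∏ u, zc p a c σ π u ^ (-∑ i, ∑ j,
        if i < j then n i * n j * (σ i j u * (p : ℤ) ^ (c u - min (a i) (a j))) else 0) := by
    simp only [← Finset.sum_neg_distrib, zpow_sum']
    rw [Finset.prod_comm (s := Finset.univ (α := Fin k))]
    refine Finset.prod_congr rfl fun i _ => ?_
    rw [Finset.prod_comm]
    refine Finset.prod_congr rfl fun j _ => ?_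
    split_ifs
    · rw [cm_x]
      refine Finset.prod_congr rfl fun u _ => ?_
      rw [hs i j, min_comm]
      congr 1
      ring
    · simp
  rw [this, prod_prod_zpow, prod_zpow_pow, prod_zpow_pow, ← prod_zpow_add, ← prod_zpow_add]
  refine Finset.prod_congr rfl fun u _ => ?_
  congr 1
  ring

theorem card_pres [Fact p.Prime] (h : Admissible p a c σ) (π : Fin d → Fin k → ℤ) :
    Nat.card (PresentedGroup (relators p a c σ π)) = p ^ (∑ r, a r + ∑ t, c t) := by
  obtain ⟨-, -, -, -, ⟨e1⟩, ⟨e2⟩, -⟩ := (partA' h π).1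
  rw [card_eq_card_quotient_mul_card_subgroup (center _), Nat.card_congr e1.toEquiv,
    Nat.card_congr e2.toEquiv, pow_add]
  simp [Finset.prod_pow_eq_pow_sum]

theorem partC [Fact p.Prime] (h : Admissible p a c σ) (h' : Admissible p a' c' σ') :
    Nonempty (PresentedGroup (relators p a c σ π) ≃* PresentedGroup (relators p a' c' σ' π')) ↔
      Related p a c σ π a' c' σ' π' := by
  have hp : p.Prime := Fact.out
  obtain ⟨⟨hfin, -, -, h3, -⟩, hz, x, q, hx, hq1, hq, hker⟩ := partA' h π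
  obtain ⟨⟨hfin', -, -, h3', -⟩, hz', x', q', hx', hq1', hq', hker'⟩ := partA' h' π'
  have hs' := h'.2.2.2.2.2.1
  have hqw : ∀ n, q' (xw p a' c' σ' π' n) = ∏ i, x' i ^ n i := fun n => by
    simp only [xw, map_ofFn_prod, map_zpow, hq1']
  have hcomp : ∀ (F : PresentedGroup (relators p a c σ π) →*
      PresentedGroup (relators p a' c' σ' π')) (f : _ →* _),
      (∀ r, f (x r) = q' (F (.of (Sum.inl r)))) → (∀ t, F (.of (Sum.inr t)) ∈ center _) →
      f.comp q = q'.comp F := fun F f h1 h2 => PresentedGroup.ext fun g => by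
    rcases g with r | t
    · rw [MonoidHom.comp_apply, hq1, h1, MonoidHom.comp_apply]
    · rw [MonoidHom.comp_apply, (hker _).2 (z_central t), map_one, MonoidHom.comp_apply,
        (hker' _).2 (h2 t)]
  constructor
  · rintro ⟨θ⟩
    have hc : ∀ g ∈ center _, θ g ∈ center _ := fun g hg => mem_center_iff.2 fun u => by
      obtain ⟨u, rfl⟩ := θ.surjective u
      rw [← map_mul, ← map_mul, mem_center_iff.1 hg]
    let j : center (PresentedGroup (relators p a c σ π)) →*
        center (PresentedGroup (relators p a' c' σ' π')) :=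
      (θ.toMonoidHom.comp (center _).subtype).codRestrict _ fun g => hc g g.2
    have hj : ∀ g, θ ((center _).subtype g) = j g := fun _ => rfl
    choose X hX using fun r => hx'.span (q' (θ (.of (Sum.inl r))))
    choose W hW using fun t => hz'.span (j (zc p a c σ π t))
    choose Y hY using fun r => hz'.span ⟨(xw p a' c' σ' π' (X r))⁻¹ * θ (.of (Sum.inl r)),
      (hker' _).1 (by rw [map_mul, map_inv, hqw, ← hX, inv_mul_cancel])⟩
    have hθ : ∀ r, θ (.of (Sum.inl r)) =
        xw p a' c' σ' π' (X r) * (∏ u, zc p a' c' σ' π' u ^ Y r u : center _) := fun r => by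
      rw [← hY, mul_inv_cancel_left]
    have hjz : ∀ e : Fin k → ℤ, j (∏ t, zc p a c σ π t ^ e t) =
        ∏ u, zc p a' c' σ' π' u ^ ∑ t, e t * W t u := fun e => by
      rw [IsBasis.map_prod_zpow]
      simp only [hW]
      rw [prod_prod_zpow]
    have hord : ∀ r, (∏ i, x' i ^ X r i) ^ p ^ a r = 1 := fun r => by
      rw [← hX, ← map_pow, ← map_pow, x_pow, hj]
      exact (hker' _).2 (Subtype.prop _)
    have hM : ∀ r i, ∃ M, (p : ℤ) ^ a r * X r i = (p : ℤ) ^ a' i * M := fun r i => by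
      have := hord r
      rw [prod_zpow_pow, hx'.rel] at this
      obtain ⟨M, hM⟩ := this i
      exact ⟨M, by rw [← hM]; push_cast; ring⟩
    choose M hM using hM
    obtain ⟨f, hf⟩ := hx.exists_lift _ hord
    refine ⟨Nat.pow_right_injective hp.two_le ?_, X, M, Y, W,
      left_inv_of_surj hx' h'.2.1 hx hf ?_, hM, fun t u => ?_, fun r s u => ?_, fun r u => ?_⟩
    · exact (card_pres h π).symm.trans ((Nat.card_congr θ.toEquiv).trans (card_pres h' π'))
    · intro g
      obtain ⟨g, rfl⟩ := hq' g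
      obtain ⟨g, rfl⟩ := θ.surjective g
      exact ⟨q g, DFunLike.congr_fun (hcomp θ.toMonoidHom f (fun r => (hf r).trans (hX r).symm)
        fun t => hc _ (z_central t)) g⟩
    · have : (∏ u, zc p a' c' σ' π' u ^ W t u) ^ p ^ c t = 1 := by
        rw [← hW, ← map_pow, zc_pow, map_one]
      rw [prod_zpow_pow, hz'.rel] at this
      rw [mul_comm]
      exact_mod_cast this u
    · have := congrArg θ (x_comm (p := p) (c := c) (σ := σ) (π := π) r s)
      rw [hj, hjz, map_commutatorElement, hθ, hθ, ← cm_coe h3'.le, cm_xw, SetLike.coe_eq_coe,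
        hz'.eq_iff] at this
      exact Int.modEq_iff_dvd.2 (this u)
    · have := congrArg θ (x_pow (p := p) (c := c) (σ := σ) (π := π) r)
      rw [hj, hjz, map_pow, hθ, xw_pow h3'.le hs' _ (M r) _ _ (fun i => by
        exact_mod_cast hM r i), SetLike.coe_eq_coe, hz'.eq_iff] at this
      exact Int.modEq_iff_dvd.2 (by exact_mod_cast this u)
  · rintro ⟨hcard, X, M, Y, W, ⟨N, hN⟩, hM, hW, hB, hπ⟩
    obtain ⟨F, hF1, hF2⟩ := exists_toGroup (p := p) (a := a) (c := c) (σ := σ) (π := π)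
      (center (PresentedGroup (relators p a' c' σ' π'))).subtype (fun g => g.2)
      (fun r => xw p a' c' σ' π' (X r) * (∏ u, zc p a' c' σ' π' u ^ Y r u : center _))
      (fun t => ∏ u, zc p a' c' σ' π' u ^ W t u)
      (fun t => by
        rw [prod_zpow_pow, hz'.rel]
        intro u
        rw [mul_comm]
        exact_mod_cast hW t u)
      (fun r => by
        rw [xw_pow h3'.le hs' _ (M r) _ _ (fun i => by exact_mod_cast hM r i), prod_prod_zpow]
        refine congrArg Subtype.val ((hz'.eq_iff _ _).2 fun u => ?_)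
        exact_mod_cast Int.modEq_iff_dvd.1 (hπ r u))
      fun r s => by
        rw [← cm_coe h3'.le, cm_xw, prod_prod_zpow]
        exact congrArg Subtype.val ((hz'.eq_iff _ _).2 fun u => Int.modEq_iff_dvd.1 (hB r s u))
    obtain ⟨f, hf⟩ := hx.exists_lift (fun r => ∏ i, x' i ^ X r i) fun r => by
      rw [prod_zpow_pow, hx'.rel]
      exact fun i => ⟨M r i, by rw [← hM]; push_cast; ring⟩
    have e := hcomp F f (fun r => by
      rw [hf, hF1, map_mul, hqw, (hker' _).2 (Subtype.prop _), mul_one]) fun t => by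
      rw [hF2]; exact Subtype.prop _
    have h1 : ∀ g, ∃ u, ∃ v ∈ center _, g = F u * v := fun g => by
      obtain ⟨u, hu⟩ := surj_of_left_inv hx' hf hN (q' g)
      obtain ⟨u, rfl⟩ := hq u
      refine ⟨u, (F u)⁻¹ * g, (hker' _).1 ?_, by simp⟩
      rw [map_mul, map_inv, ← hu, ← MonoidHom.comp_apply, ← e, MonoidHom.comp_apply,
        inv_mul_cancel]
    have h2 : center _ ≤ F.range := by
      rw [← h3', commutator_def, commutator_le]
      intro g _ g' _
      obtain ⟨u, v, hv, rfl⟩ := h1 g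
      obtain ⟨u', v', hv', rfl⟩ := h1 g'
      refine ⟨⁅u, u'⁆, ?_⟩
      rw [map_commutatorElement, ← cm_coe h3'.le, ← cm_coe h3'.le, map_mul, map_mul,
        MonoidHom.mul_apply, MonoidHom.mul_apply, cm_center _ hv, cm_center _ hv,
        cm_skew _ _ v', cm_center _ hv', inv_one, mul_one, mul_one, mul_one]
    refine ⟨MulEquiv.ofBijective F ((Nat.bijective_iff_surjective_and_card F).2 ⟨fun g => ?_, by
      rw [card_pres h, card_pres h', hcard]⟩)⟩
    obtain ⟨u, v, hv, rfl⟩ := h1 g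
    obtain ⟨v, rfl⟩ := h2 hv
    exact ⟨u * v, map_mul _ _ _⟩

end Pool.Agent.Work.MP_7393fc_al
end
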